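import Pool.Agent.Helper81.PC.St
import Mathlib.Tactic.Linarith
import Mathlib.Tactic.Ring

set_option autoImplicit false

/-!
# Packed checker (S15955), module V: trees
-/

namespace Helper81.PC

open Helper11.CT Helper55.PC

theorem V_eq {a b n : ℤ} (h : a = b) : a ≡ b [ZMOD n] := by
  rw [h]

/-- numbers congruent modulo `Z` have the same residue -/
theorem V_mod {x y : ℕ} (h : (x : ℤ) ≡ (y : ℤ) [ZMOD ZZ]) : x % ZN = y % ZN := by
  have h1 : (x : ℤ) % (ZN : ℤ) = (y : ℤ) % (ZN : ℤ) := by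
    rw [ZN_eq]
    exact h
  exact_mod_cast h1

theorem V_ps {w w' Q : ℕ} (h : (w : ℤ) ≡ (w' : ℤ) [ZMOD ZZ]) : ps w Q = ps w' Q := by
  show w % ZN + ZN * Q = w' % ZN + ZN * Q
  rw [V_mod h]

theorem V_GQ {c : Con} {Q : List Con} (h1 : c.2.length ≤ 16) (h2 : ∀ x ∈ c.2, |x| ≤ 4096)
    (h : GQ Q) : GQ (c :: Q) := by
  intro d hd
  rw [List.mem_cons] at hd
  rcases hd with rfl | hd
  · exact ⟨h1, h2⟩
  · exact h d hd

theorem V_one (hA : StA) {e : List ℤ} (he : okc e = true) :
    (axpy (-1) e [1]).length ≤ 16 ∧ (∀ x ∈ axpy (-1) e [1], |x| ≤ 4096) ∧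
    phi BB (axpy (-1) e [1]) = 1 - phi BB e := by
  obtain ⟨h1, h2⟩ := okc_bd he
  obtain ⟨a1, a2, a3⟩ := hA (-1) e [1]
  refine ⟨?_, ?_, ?_⟩
  · refine a2.trans ?_
    simp only [List.length_cons, List.length_nil]
    omega
  · intro x hx
    have := a3 4000 1 (by norm_num) (by norm_num) h2 (by simp) x hx
    rw [abs_neg, abs_one] at this
    linarith
  · rw [a1 BB]
    simp
    ring

theorem V_neg (hA : StA) {e : List ℤ} (he : okc e = true) :
    (axpy (-1) e []).length ≤ 16 ∧ (∀ x ∈ axpy (-1) e [], |x| ≤ 4096) ∧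
    phi BB (axpy (-1) e []) = -phi BB e := by
  obtain ⟨h1, h2⟩ := okc_bd he
  obtain ⟨a1, a2, a3⟩ := hA (-1) e []
  refine ⟨?_, ?_, ?_⟩
  · refine a2.trans ?_
    simp only [List.length_nil]
    omega
  · intro x hx
    have := a3 4000 0 (by norm_num) (by norm_num) h2 (by simp) x hx
    rw [abs_neg, abs_one] at this
    linarith
  · rw [a1 BB]
    simp

theorem V_bd {β : ℤ} {e : List ℤ} (h : ∀ x ∈ e, |x| ≤ β) (hβ : β ≤ 4294967296) :
    ((pkN e : ℕ) : ℤ) ≡ phi BB e [ZMOD ZZ] :=
  pkN_cg e fun x hx => (h x hx).trans hβ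

theorem V_ch (hA : StA) (hE : StE) (hI : StI) (hO : StO) (hP : StP) (hQ : StQ) (hU : StU)
    (K : Cls) (hK : Good K) : ∀ (t : Ten) (Q : List Con), GQ Q → chN (pkK K) t (pkQ Q) = true →
    chk K (toT t) Q = true := by
  intro t
  induction t with
  | I e L R ihL ihR =>
    intro Q hq h
    have h' : an (isI K e) (an (okc e)
      (an (chN (pkK K) L (ps (4294967296 * (Nat.succ (ng (pkN e)))) (pkQ Q)))
        (chN (pkK K) R (ps (4294967296 * (pkN e)) (pkQ Q))))) = true := h
    rw [an_iff, an_iff, an_iff] at h'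
    obtain ⟨h1, h2, h3, h4⟩ := h'
    obtain ⟨b1, b2⟩ := okc_bd h2
    obtain ⟨o1, o2, o3⟩ := V_one hA h2
    have e1 : pkQ ((true, axpy (-1) e [1]) :: Q) = ps (4294967296 * (pkN e)) (pkQ Q) := by
      show ps (4294967296 * (Nat.succ (ng (pkN (axpy (-1) e [1]))))) (pkQ Q) = _
      apply V_ps
      have c1 := V_bd o2 (by norm_num)
      have c2 := V_bd b2 (by norm_num)
      have c3 := (ng_cg (pkN (axpy (-1) e [1]))).trans c1.neg
      rw [o3] at c3
      have c4 : ((4294967296 * (Nat.succ (ng (pkN (axpy (-1) e [1])))) : ℕ) : ℤ) ≡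
          4294967296 * (-(1 - phi BB e) + 1) [ZMOD ZZ] := by
        push_cast
        exact (c3.add_right 1).mul_left _
      have c5 : ((4294967296 * pkN e : ℕ) : ℤ) ≡ 4294967296 * phi BB e [ZMOD ZZ] := by
        push_cast
        exact c2.mul_left _
      have c6 : (4294967296 : ℤ) * (-(1 - phi BB e) + 1) = 4294967296 * phi BB e := by ring
      rw [c6] at c4
      exact c4.trans c5.symm
    show (isI K e && chk K (toT L) ((true, e) :: Q) &&
      chk K (toT R) ((true, axpy (-1) e [1]) :: Q)) = true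
    rw [Bool.and_eq_true, Bool.and_eq_true]
    refine ⟨⟨h1, ?_⟩, ?_⟩
    · exact ihL ((true, e) :: Q) (V_GQ b1 (fun x hx => (b2 x hx).trans (by norm_num)) hq) h3
    · apply ihR ((true, axpy (-1) e [1]) :: Q) (V_GQ o1 o2 hq)
      rw [e1]
      exact h4
  | Q e j L R ihL ihR =>
    intro Q hq h
    have h' : an (okc e) (an (juN (pkK K) (pkQ Q) e j)
      (an (chN (pkK K) L (ps (Nat.succ (4294967296 * (ng (pkN e)))) (pkQ Q)))
        (chN (pkK K) R (ps (Nat.succ (4294967296 * (pkN e))) (pkQ Q))))) = true := h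
    rw [an_iff, an_iff, an_iff] at h'
    obtain ⟨h2, h1, h3, h4⟩ := h'
    obtain ⟨b1, b2⟩ := okc_bd h2
    obtain ⟨o1, o2, o3⟩ := V_neg hA h2
    have e1 : pkQ ((false, axpy (-1) e []) :: Q) = ps (Nat.succ (4294967296 * (pkN e))) (pkQ Q) := by
      show ps (Nat.succ (4294967296 * (ng (pkN (axpy (-1) e []))))) (pkQ Q) = _
      apply V_ps
      have c1 := V_bd o2 (by norm_num)
      have c2 := V_bd b2 (by norm_num)
      have c3 := (ng_cg (pkN (axpy (-1) e []))).trans c1.neg
      rw [o3, neg_neg] at c3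
      push_cast
      exact ((c3.trans c2.symm).mul_left _).add_right 1
    show (juc K Q e (toJu j) && chk K (toT L) ((false, e) :: Q) &&
      chk K (toT R) ((false, axpy (-1) e []) :: Q)) = true
    rw [Bool.and_eq_true, Bool.and_eq_true]
    refine ⟨⟨hU K Q e j hK hq h2 h1, ?_⟩, ?_⟩
    · exact ihL ((false, e) :: Q) (V_GQ b1 (fun x hx => (b2 x hx).trans (by norm_num)) hq) h3
    · apply ihR ((false, axpy (-1) e []) :: Q) (V_GQ o1 o2 hq)
      rw [e1]
      exact h4
  | C c =>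
    intro Q hq h
    have h1 := hE Q c 0 [] hq (Rep.nil _) h
    show comb (toC c).l Q [] (Int.ofNat 0) false = true
    unfold cert at h1
    split at h1
    · exact h1
    · exact h1
  | N v m c1 c2 z =>
    intro Q hq h
    have h' : an (okd v) (an (nzN (pkK K) (pkQ Q) v z)
      (an (ctN (pkQ Q) c1 (mn m * (pkK K).P + (fRN (pkK K) v + 1)))
      (ctN (pkQ Q) c2 (mr m * (pkK K).P + (ng (fRN (pkK K) v) + 1))))) = true := h
    rw [an_iff, an_iff, an_iff] at h'
    obtain ⟨h1, h2, h3, h4⟩ := h'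
    obtain ⟨b1, b2⟩ := okd_bd h1
    have b3 : ∀ x ∈ v, |x| ≤ 24 := fun x hx => (b2 x hx).trans (by norm_num)
    have hR := hK.R v b3
    have hPr := hK.P
    show (nzc K Q v (toNZ z) &&
      cert Q (toC c1) (axpy (Int.neg (mz m)) K.P (axpy 1 (fR K v) [1])) &&
      cert Q (toC c2) (axpy (mz m) K.P (axpy (-1) (fR K v) [1]))) = true
    rw [Bool.and_eq_true, Bool.and_eq_true]
    have hm := mz_bd m
    have l1 : ([1] : List ℤ).length ≤ 16 := by simp
    have d1 : ∀ x ∈ ([1] : List ℤ), |x| ≤ 1 := by simp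
    refine ⟨⟨hI.1 K Q v z hK hq (by omega) b3 h2, ?_⟩, ?_⟩
    · refine hE Q c1 _ _ hq ?_ h3
      obtain ⟨a1, a2, a3⟩ := hA 1 (fR K v) [1]
      obtain ⟨a4, a5, a6⟩ := hA (Int.neg (mz m)) K.P (axpy 1 (fR K v) [1])
      refine ⟨?_, ?_, ?_⟩
      · exact a5.trans (max_le hPr.len (a2.trans (max_le hR.len l1)))
      · intro x hx
        have := a6 4 (|1| * 576 + 1) (by norm_num) (by norm_num) hPr.bd
          (a3 576 1 (by norm_num) (by norm_num) hR.bd d1) x hx
        have hm' : |Int.neg (mz m)| ≤ 8 := by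
          show |-(mz m)| ≤ 8
          rwa [abs_neg]
        rw [abs_one] at this
        linarith
      · rw [a4, a1]
        push_cast
        have := ((mn_cg m).mul hPr.cg).add ((hR.cg).add_right 1)
        refine this.trans ?_
        apply V_eq
        show -mz m * phi BB K.P + (phi BB (fR K v) + 1) =
          -(mz m) * phi BB K.P + (1 * phi BB (fR K v) + (1 + BB * 0))
        ring
    · refine hE Q c2 _ _ hq ?_ h4
      obtain ⟨a1, a2, a3⟩ := hA (-1) (fR K v) [1]
      obtain ⟨a4, a5, a6⟩ := hA (mz m) K.P (axpy (-1) (fR K v) [1])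
      refine ⟨?_, ?_, ?_⟩
      · exact a5.trans (max_le hPr.len (a2.trans (max_le hR.len l1)))
      · intro x hx
        have := a6 4 (|-1| * 576 + 1) (by norm_num) (by norm_num) hPr.bd
          (a3 576 1 (by norm_num) (by norm_num) hR.bd d1) x hx
        rw [abs_neg, abs_one] at this
        linarith
      · rw [a4, a1]
        push_cast
        have := ((mr_cg m).mul hPr.cg).add (((ng_cg _).trans hR.cg.neg).add_right 1)
        refine this.trans ?_
        apply V_eq
        show mz m * phi BB K.P + (-phi BB (fR K v) + 1) =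
          mz m * phi BB K.P + (-1 * phi BB (fR K v) + (1 + BB * 0))
        ring
  | K r =>
    intro Q hq h
    exact hQ K Q r hK hq h
  | R r =>
    intro Q hq h
    exact hO K Q r hK hq h
  | S r =>
    intro Q hq h
    exact hP K Q r hK hq h

theorem hV (hA : StA) (hE : StE) (hG : StG) (hI : StI) (hO : StO) (hP : StP) (hQ : StQ)
    (hU : StU) : StV := by
  intro K t Q h
  have h' : an (okK K) (an (okQ Q) (chN (pkK K) t (pkQ Q))) = true := h
  rw [an_iff, an_iff] at h'
  exact V_ch hA hE hI hO hP hQ hU K (hG K h'.1) t Q (okQ_GQ Q h'.2.1) h'.2.2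

end Helper81.PC
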