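import Pool.Agent.Helper81.PC.M_A
import Pool.Agent.Helper81.PC.M_B
import Pool.Agent.Helper90.PC.M_C
import Pool.Agent.Helper81.PC.M_D
import Pool.Agent.Helper76.PC.M_E
import Pool.Agent.Helper83.PC.M_G
import Pool.Agent.Helper83.PC.M_H
import Pool.Agent.Helper83.PC.M_I
import Pool.Agent.Helper87.PC.M_K
import Pool.Agent.Helper87.PC.M_L
import Pool.Agent.Helper58.PC.M_M
import Pool.Agent.Helper87.PC.M_N
import Pool.Agent.Helper62.PC.M_O
import Pool.Agent.Helper81.PC.M_P
import Pool.Agent.Helper81.PC.M_Q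
import Pool.Agent.Helper3.PC.M_R
import Pool.Agent.Helper3.PC.M_U
import Pool.Agent.Helper81.PC.M_V

set_option autoImplicit false

/-!
# The packed checker is sound

Definitions: `Pool/Agent/Helper55/PC` (helper55); proof: helpers 3, 58, 62, 76, 81, 83, 87, 90.
-/

namespace Helper81.PC

open Helper11.CT Helper55.PC

theorem sA : StA := Helper81.PC.hA
theorem sB : StB := Helper81.PC.hB
theorem sE : StE := Pool.Agent.Helper76.PC.hE sA (Pool.Agent.Helper90.PC.hC sB) Helper81.PC.hD
theorem sG : StG := Pool.Agent.Helper83.PC.hG sA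
theorem sI : StI := Pool.Agent.Helper83.PC.hI sA sE (Pool.Agent.Helper83.PC.hH sA sB)
theorem sK : StK := Helper87.PC.hK sA sE
theorem sL : StL := Helper87.PC.hL sA sK
theorem sM : StM := Pool.Agent.Helper58.PC.hM sA sE sI
theorem sN : StN := Helper87.PC.hN sA sK
theorem sO : StO := Pool.Agent.Helper62.PC.hO sA sK sL sM sN
theorem sP : StP := Helper81.PC.hP sA sK sL sM sN
theorem sQ : StQ := Helper81.PC.hQ sA sE sI
theorem sR : StR := Pool.Agent.Helper3.PC.hR sA sB
theorem sU : StU := Pool.Agent.Helper3.PC.hU sA sI sR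

end Helper81.PC

namespace Helper55.PC

open Helper11.CT Helper81.PC

/-- the packed checker is sound -/
theorem chkN_sound (K : Cls) (t : Ten) (Q : List Con) (h : chkN K t Q = true) :
    chk K (toT t) Q = true :=
  Helper81.PC.hV sA sE sG sI sO sP sQ sU K t Q h

end Helper55.PC
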