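import Pool.Agent.Helper25.KG.C5d
import Pool.Agent.Helper81.PC.C4N

set_option autoImplicit false

/-!
# Packed checker (S15955): trees with `N` leaves of kind `i` for `tau` different from `0`
-/

noncomputable section

namespace Helper81.PC

open Helper11.CT Helper55.PC Helper25.KG

def nz5N (K : ClN) (Q : ℕ) (v : List ℤ) : NZn → Bool
  | .i s c1 c2 => orr (nzN K Q v (.i s c1 c2))
      (an (ctN Q c1 (Nat.add (Nat.mul (nat_lit 4) (Nat.add (Nat.mul (mr s) K.D) (fIN K v)))
        (ng (Int.natAbs (tau v)))))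
      (ctN Q c2 (Nat.add (Nat.mul (ng (nat_lit 4)) (Nat.add (Nat.mul (mr s) K.D) (fIN K v)))
        (Nat.add (Nat.mul (nat_lit 4) K.D) (ng (Int.natAbs (tau v)))))))
  | z => nzN K Q v z

def ch5N (K : ClN) (kf : List (ℕ × List (ℕ × ℕ × ℕ × ℕ))) : Ten → ℕ → Bool
  | .I e L R, Q => an (isI K.K e) (an (okc e)
      (an (ch5N K kf L (ps (Nat.mul (nat_lit 4294967296) (Nat.succ (ng (pkN e)))) Q))
        (ch5N K kf R (ps (Nat.mul (nat_lit 4294967296) (pkN e)) Q))))
  | .Q e j L R, Q => an (okc e) (an (juN K Q e j)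
      (an (ch5N K kf L (ps (Nat.succ (Nat.mul (nat_lit 4294967296) (ng (pkN e)))) Q))
        (ch5N K kf R (ps (Nat.succ (Nat.mul (nat_lit 4294967296) (pkN e))) Q))))
  | .C c, Q => ctN Q c (nat_lit 0)
  | .N v m c1 c2 z, Q => an (okd v) (an (nz5N K Q v z)
      (an (ctN Q c1 (Nat.add (Nat.mul (mn m) K.P) (Nat.add (fRN K v) (nat_lit 1))))
      (ctN Q c2 (Nat.add (Nat.mul (mr m) K.P) (Nat.add (ng (fRN K v)) (nat_lit 1))))))
  | .K r, Q => kl4N K kf Q r
  | .R r, Q => rlN K Q r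
  | .S r, Q => slN K Q r

def chk5N (K : Cls) (kf : List KF3) (t : Ten) (Q : List Con) : Bool :=
  an (okK K) (an (okk3 kf) (an (okQ Q) (ch5N (pkK K) (pkk3 kf) t (pkQ Q))))

theorem C5_tau {v : List ℤ} (h : ∀ x ∈ v, |x| ≤ 24) : |tau v| ≤ 24 := by
  rcases v with _ | ⟨a, _ | ⟨t, v⟩⟩
  · show |(0 : ℤ)| ≤ 24
    norm_num
  · show |(0 : ℤ)| ≤ 24
    norm_num
  · exact h t (by simp)

theorem C5_nz (hA : StA) (hE : StE) (hI : StI) (K : Cls) (Q : List Con) (v : List ℤ) (z : NZn)
    (hG : Good K) (hQ : GQ Q) (hl : v.length ≤ 7) (hv : ∀ x ∈ v, |x| ≤ 24)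
    (h : nz5N (pkK K) (pkQ Q) v z = true) : nzc5 K Q v (toNZ z) = true := by
  cases z with
  | k => exact hI.1 K Q v .k hG hQ hl hv h
  | r m c1 c2 => exact hI.1 K Q v (.r m c1 c2) hG hQ hl hv h
  | x m c1 c2 => exact hI.1 K Q v (.x m c1 c2) hG hQ hl hv h
  | i s c1 c2 =>
    have h' : orr (nzN (pkK K) (pkQ Q) v (.i s c1 c2))
      (an (ctN (pkQ Q) c1 (4 * (mr s * (pkK K).D + fIN (pkK K) v) + ng (Int.natAbs (tau v))))
      (ctN (pkQ Q) c2 (ng 4 * (mr s * (pkK K).D + fIN (pkK K) v) +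
        (4 * (pkK K).D + ng (Int.natAbs (tau v)))))) = true := h
    rw [orr_iff, an_iff] at h'
    show (nzc K Q v (toNZ (.i s c1 c2)) ||
      (cert Q (toC c1) (axpy 4 (axpy (mz s) K.D (fI K v)) [Int.neg (Int.ofNat (tau v).natAbs)]) &&
      cert Q (toC c2) (axpy (-4) (axpy (mz s) K.D (fI K v))
        (axpy 4 K.D [Int.neg (Int.ofNat (tau v).natAbs)])))) = true
    rw [Bool.or_eq_true, Bool.and_eq_true]
    refine h'.imp (fun h1 => hI.1 K Q v (.i s c1 c2) hG hQ hl hv h1) (fun h1 => ?_)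
    have ht := C5_tau hv
    have e1 : Int.neg (Int.ofNat (tau v).natAbs) = -|tau v| := by
      rw [Int.abs_eq_natAbs]
      rfl
    have hm : Rep 24 [Int.neg (Int.ofNat (tau v).natAbs)] (ng (Int.natAbs (tau v))) := by
      refine ⟨by simp, ?_, ?_⟩
      · intro x hx
        rw [List.mem_singleton] at hx
        rw [hx, e1, abs_neg, abs_abs]
        exact ht
      · rw [phi_cons, phi_nil, mul_zero, add_zero, e1]
        refine (ng_cg _).trans ?_
        rw [Int.abs_eq_natAbs]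
    have hD4 : Rep 608 (axpy (mz s) K.D (fI K v)) (mr s * (pkK K).D + fIN (pkK K) v) :=
      Q_axpy hA (mr_cg s) (mz_bd s) hG.D (hG.I v hv) (by norm_num) (by norm_num) (by norm_num)
    have r1 : Rep 100000 (axpy 4 (axpy (mz s) K.D (fI K v)) [Int.neg (Int.ofNat (tau v).natAbs)])
        (4 * (mr s * (pkK K).D + fIN (pkK K) v) + ng (Int.natAbs (tau v))) :=
      Q_axpy hA (kn := 4) (k := 4) (κ := 4) (by simp) (by norm_num) hD4 hm (by norm_num)
        (by norm_num) (by norm_num)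
    have r2 : Rep 100 (axpy 4 K.D [Int.neg (Int.ofNat (tau v).natAbs)])
        (4 * (pkK K).D + ng (Int.natAbs (tau v))) :=
      Q_axpy hA (kn := 4) (k := 4) (κ := 4) (by simp) (by norm_num) hG.D hm (by norm_num)
        (by norm_num) (by norm_num)
    have h4 : ((ng 4 : ℕ) : ℤ) ≡ (-4) [ZMOD ZZ] := ng_cg 4
    have r3 : Rep 100000 (axpy (-4) (axpy (mz s) K.D (fI K v))
        (axpy 4 K.D [Int.neg (Int.ofNat (tau v).natAbs)]))
        (ng 4 * (mr s * (pkK K).D + fIN (pkK K) v) +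
          (4 * (pkK K).D + ng (Int.natAbs (tau v)))) :=
      Q_axpy hA (κ := 4) h4 (by norm_num) hD4 r2 (by norm_num) (by norm_num) (by norm_num)
    exact ⟨hE Q c1 _ _ hQ r1 h1.1, hE Q c2 _ _ hQ r3 h1.2⟩

theorem C5_ch (hA : StA) (hE : StE) (hI : StI) (hO : StO) (hP : StP) (hU : StU)
    (K : Cls) (kf : List KF3) (hK : Good K) (hK3 : G3 kf) : ∀ (t : Ten) (Q : List Con), GQ Q →
    ch5N (pkK K) (pkk3 kf) t (pkQ Q) = true → chk5 K kf (toT t) Q = true := by
  intro t
  induction t with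
  | I e L R ihL ihR =>
    intro Q hq h
    have h' : an (isI K e) (an (okc e)
      (an (ch5N (pkK K) (pkk3 kf) L (ps (4294967296 * (Nat.succ (ng (pkN e)))) (pkQ Q)))
        (ch5N (pkK K) (pkk3 kf) R (ps (4294967296 * (pkN e)) (pkQ Q))))) = true := h
    rw [an_iff, an_iff, an_iff] at h'
    obtain ⟨h1, h2, h3, h4⟩ := h'
    obtain ⟨b1, b2⟩ := okc_bd h2
    obtain ⟨o1, o2, o3⟩ := V_one hA h2
    have e1 : pkQ ((true, axpy (-1) e [1]) :: Q) = ps (4294967296 * (pkN e)) (pkQ Q) := by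
      show ps (4294967296 * (Nat.succ (ng (pkN (axpy (-1) e [1]))))) (pkQ Q) = _
      apply V_ps
      have c1 := V_bd o2 (by norm_num)
      have c2 := V_bd b2 (by norm_num)
      have c3 := (ng_cg (pkN (axpy (-1) e [1]))).trans c1.neg
      rw [o3] at c3
      have c4 : ((4294967296 * (Nat.succ (ng (pkN (axpy (-1) e [1])))) : ℕ) : ℤ) ≡
          4294967296 * (-(1 - phi BB e) + 1) [ZMOD ZZ] := by
        push_cast
        exact (c3.add_right 1).mul_left _
      have c5 : ((4294967296 * pkN e : ℕ) : ℤ) ≡ 4294967296 * phi BB e [ZMOD ZZ] := by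
        push_cast
        exact c2.mul_left _
      have c6 : (4294967296 : ℤ) * (-(1 - phi BB e) + 1) = 4294967296 * phi BB e := by ring
      rw [c6] at c4
      exact c4.trans c5.symm
    show (isI K e && chk5 K kf (toT L) ((true, e) :: Q) &&
      chk5 K kf (toT R) ((true, axpy (-1) e [1]) :: Q)) = true
    rw [Bool.and_eq_true, Bool.and_eq_true]
    refine ⟨⟨h1, ?_⟩, ?_⟩
    · exact ihL ((true, e) :: Q) (V_GQ b1 (fun x hx => (b2 x hx).trans (by norm_num)) hq) h3
    · apply ihR ((true, axpy (-1) e [1]) :: Q) (V_GQ o1 o2 hq)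
      rw [e1]
      exact h4
  | Q e j L R ihL ihR =>
    intro Q hq h
    have h' : an (okc e) (an (juN (pkK K) (pkQ Q) e j)
      (an (ch5N (pkK K) (pkk3 kf) L (ps (Nat.succ (4294967296 * (ng (pkN e)))) (pkQ Q)))
        (ch5N (pkK K) (pkk3 kf) R (ps (Nat.succ (4294967296 * (pkN e))) (pkQ Q))))) = true := h
    rw [an_iff, an_iff, an_iff] at h'
    obtain ⟨h2, h1, h3, h4⟩ := h'
    obtain ⟨b1, b2⟩ := okc_bd h2
    obtain ⟨o1, o2, o3⟩ := V_neg hA h2
    have e1 : pkQ ((false, axpy (-1) e []) :: Q) = ps (Nat.succ (4294967296 * (pkN e))) (pkQ Q) := by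
      show ps (Nat.succ (4294967296 * (ng (pkN (axpy (-1) e []))))) (pkQ Q) = _
      apply V_ps
      have c1 := V_bd o2 (by norm_num)
      have c2 := V_bd b2 (by norm_num)
      have c3 := (ng_cg (pkN (axpy (-1) e []))).trans c1.neg
      rw [o3, neg_neg] at c3
      push_cast
      exact ((c3.trans c2.symm).mul_left _).add_right 1
    show (juc K Q e (toJu j) && chk5 K kf (toT L) ((false, e) :: Q) &&
      chk5 K kf (toT R) ((false, axpy (-1) e []) :: Q)) = true
    rw [Bool.and_eq_true, Bool.and_eq_true]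
    refine ⟨⟨hU K Q e j hK hq h2 h1, ?_⟩, ?_⟩
    · exact ihL ((false, e) :: Q) (V_GQ b1 (fun x hx => (b2 x hx).trans (by norm_num)) hq) h3
    · apply ihR ((false, axpy (-1) e []) :: Q) (V_GQ o1 o2 hq)
      rw [e1]
      exact h4
  | C c =>
    intro Q hq h
    have h1 := hE Q c 0 [] hq (Rep.nil _) h
    show comb (toC c).l Q [] (Int.ofNat 0) false = true
    unfold cert at h1
    split at h1
    · exact h1
    · exact h1
  | N v m c1 c2 z =>
    intro Q hq h
    have h' : an (okd v) (an (nz5N (pkK K) (pkQ Q) v z)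
      (an (ctN (pkQ Q) c1 (mn m * (pkK K).P + (fRN (pkK K) v + 1)))
      (ctN (pkQ Q) c2 (mr m * (pkK K).P + (ng (fRN (pkK K) v) + 1))))) = true := h
    rw [an_iff, an_iff, an_iff] at h'
    obtain ⟨h1, h2, h3, h4⟩ := h'
    obtain ⟨b1, b2⟩ := okd_bd h1
    have b3 : ∀ x ∈ v, |x| ≤ 24 := fun x hx => (b2 x hx).trans (by norm_num)
    have hR := hK.R v b3
    have hPr := hK.P
    show (nzc5 K Q v (toNZ z) &&
      cert Q (toC c1) (axpy (Int.neg (mz m)) K.P (axpy 1 (fR K v) [1])) &&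
      cert Q (toC c2) (axpy (mz m) K.P (axpy (-1) (fR K v) [1]))) = true
    rw [Bool.and_eq_true, Bool.and_eq_true]
    have hm := mz_bd m
    have l1 : ([1] : List ℤ).length ≤ 16 := by simp
    have d1 : ∀ x ∈ ([1] : List ℤ), |x| ≤ 1 := by simp
    refine ⟨⟨C5_nz hA hE hI K Q v z hK hq (by omega) b3 h2, ?_⟩, ?_⟩
    · refine hE Q c1 _ _ hq ?_ h3
      obtain ⟨a1, a2, a3⟩ := hA 1 (fR K v) [1]
      obtain ⟨a4, a5, a6⟩ := hA (Int.neg (mz m)) K.P (axpy 1 (fR K v) [1])
      refine ⟨?_, ?_, ?_⟩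
      · exact a5.trans (max_le hPr.len (a2.trans (max_le hR.len l1)))
      · intro x hx
        have := a6 4 (|1| * 576 + 1) (by norm_num) (by norm_num) hPr.bd
          (a3 576 1 (by norm_num) (by norm_num) hR.bd d1) x hx
        have hm' : |Int.neg (mz m)| ≤ 8 := by
          show |-(mz m)| ≤ 8
          rwa [abs_neg]
        rw [abs_one] at this
        linarith
      · rw [a4, a1]
        push_cast
        have := ((mn_cg m).mul hPr.cg).add ((hR.cg).add_right 1)
        refine this.trans ?_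
        apply V_eq
        show -mz m * phi BB K.P + (phi BB (fR K v) + 1) =
          -(mz m) * phi BB K.P + (1 * phi BB (fR K v) + (1 + BB * 0))
        ring
    · refine hE Q c2 _ _ hq ?_ h4
      obtain ⟨a1, a2, a3⟩ := hA (-1) (fR K v) [1]
      obtain ⟨a4, a5, a6⟩ := hA (mz m) K.P (axpy (-1) (fR K v) [1])
      refine ⟨?_, ?_, ?_⟩
      · exact a5.trans (max_le hPr.len (a2.trans (max_le hR.len l1)))
      · intro x hx
        have := a6 4 (|-1| * 576 + 1) (by norm_num) (by norm_num) hPr.bd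
          (a3 576 1 (by norm_num) (by norm_num) hR.bd d1) x hx
        rw [abs_neg, abs_one] at this
        linarith
      · rw [a4, a1]
        push_cast
        have := ((mr_cg m).mul hPr.cg).add (((ng_cg _).trans hR.cg.neg).add_right 1)
        refine this.trans ?_
        apply V_eq
        show mz m * phi BB K.P + (-phi BB (fR K v) + 1) =
          mz m * phi BB K.P + (-1 * phi BB (fR K v) + (1 + BB * 0))
        ring
  | K r =>
    intro Q hq h
    exact C4_kl hA hE hI K kf Q r hK hK3 hq h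
  | R r =>
    intro Q hq h
    exact hO K Q r hK hq h
  | S r =>
    intro Q hq h
    exact hP K Q r hK hq h

/-- the packed checker `chk5N` is sound -/
theorem chk5N_sound (K : Cls) (kf : List KF3) (t : Ten) (Q : List Con)
    (h : chk5N K kf t Q = true) : chk5 K kf (toT t) Q = true := by
  have h' : an (okK K) (an (okk3 kf) (an (okQ Q) (ch5N (pkK K) (pkk3 kf) t (pkQ Q)))) = true := h
  rw [an_iff, an_iff, an_iff] at h'
  exact C5_ch sA sE sI sO sP sU K kf (sG K h'.1) (C3_G h'.2.1) t Q (okQ_GQ Q h'.2.2.1) h'.2.2.2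

end Helper81.PC
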