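import Pool.Agent.Helper55.PC.Dec

set_option autoImplicit false

/-!
# The packed checker for trees of the second kind (`chk2`)
-/

noncomputable section

namespace Helper81.PC

open Helper11.CT Helper55.PC

/-- packed data of a class of the second kind -/
structure CxN where
  M : Cx
  K : ClN
  E : ℕ
  T : ℕ

def pkM (M : Cx) : CxN where
  M := M
  K := pkK M.K
  E := pkN M.E
  T := pkN M.T

structure RLn2 where
  r : RLn
  sc2 : ℕ
  zm : NZn
  znm : NZn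
  zfm : NZn

def toRL2 (x : RLn2) : RL2 where
  r := toRL x.r
  sc2 := toC x.sc2
  zm := toNZ x.zm
  znm := toNZ x.znm
  zfm := toNZ x.zfm

structure SLn2 where
  r : SLn
  sc2 : ℕ
  zm : NZn

def toSL2 (x : SLn2) : SL2 where
  r := toSL x.r
  sc2 := toC x.sc2
  zm := toNZ x.zm

structure KLn2 where
  r : KLn
  zm : NZn
  zpm : NZn

def toKL2 (x : KLn2) : KL2 where
  r := toKL x.r
  zm := toNZ x.zm
  zpm := toNZ x.zpm

/-- row of the class shift -/
def rBN (M : CxN) (st : ℕ) (n : List ℤ) : ℕ := match st with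
  | 1 => Nat.add (ng M.K.C) (fRN M.K n)
  | 2 => Nat.add (ng M.K.C) (fRN M.K n)
  | _ => Nat.add M.T (Nat.add (ng M.K.C) (fRN M.K n))

/-- memberships of the line functions -/
def lm2N (M : CxN) (Q : ℕ) (st : ℕ) (n : List ℤ) (W t off : ℕ) (AW At BW Bt : Memn) : Bool :=
  an (meN Q M.K.P W (ng (fRN M.K n)) M.K.A (nat_lit 1) AW)
    (an (meN Q M.K.P t (ng (fRN M.K n)) M.K.A off At)
      (match st with
        | 0 => true
        | _ => an (meN Q M.K.P W (ng (rBN M st n)) M.K.A (nat_lit 1) BW)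
            (meN Q M.K.P t (ng (rBN M st n)) M.K.A off Bt)))

/-- index conditions of the vertical line -/
def ni2N (M : CxN) (Q : ℕ) (st : ℕ) (n : List ℤ) (e1 e2 : ℕ) (zn : NZn) (sc sc2 : ℕ)
    (zl zm : NZn) : Bool :=
  match st with
    | 0 => an (exN M.K Q n e1 e2 zn) (an (ctN Q sc (Nat.add (ng (fIN M.K n)) M.K.J))
        (an (orr (ieq (tau n) 1) (nzN M.K Q (dsub n dL) zl))
        (an (ctN Q sc2 (Nat.add (ng M.K.J) (Nat.add M.E (Nat.add (ng M.K.D) (fIN M.K n)))))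
        (orr (ieq (tau n) 1) (nzN M.K Q (axpy 1 dM n) zm)))))
    | 1 => an (exN M.K Q n e1 e2 zn) (an (ctN Q sc (Nat.add (ng M.K.J) (fIN M.K n)))
        (orr (ieq (tau n) 1) (nzN M.K Q (dsub n dL) zl)))
    | 2 => leq n dL
    | 3 => an (exN M.K Q n e1 e2 zn)
        (an (ctN Q sc (Nat.add (ng (fIN M.K n)) (Nat.add (ng M.E) (Nat.add M.K.D M.K.J))))
        (orr (ieq (tau n) 1) (nzN M.K Q (axpy 1 dM n) zm)))
    | 4 => leq n dV
    | _ => false

/-- index conditions of the pair -/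
def rx2N (M : CxN) (Q : ℕ) (x : RLn2) : Bool :=
  an (ni2N M Q x.r.st x.r.n x.r.en1 x.r.en2 x.r.zn x.r.sc x.sc2 x.r.zl x.zm)
  (match x.r.f0 with
    | true => leq x.r.f [] && x.r.jr && (match x.r.st with | 1 => true | 3 => true | _ => false)
    | false => an (exN M.K Q x.r.f x.r.ef1 x.r.ef2 x.r.zf)
        (an (orr (ieq (tau x.r.n) (tau x.r.f)) (nzN M.K Q (dsub x.r.n x.r.f) x.r.znf))
        (an (match x.r.st with
          | 1 => orr (ieq (tau x.r.n) (Int.add (tau x.r.f) 1))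
              (nzN M.K Q (dsub (dsub x.r.n x.r.f) dL) x.r.znl)
          | 3 => orr (ieq (tau x.r.n) (Int.add (tau x.r.f) 1))
              (nzN M.K Q (axpy 1 dM (dsub x.r.n x.r.f)) x.znm)
          | _ => true)
        (match x.r.st with
          | 2 => true
          | 4 => true
          | _ => an (orr (!ieq (tau x.r.n) (Int.add (tau x.r.f) 2))
                (an (nzN M.K Q (dsub (dsub x.r.n x.r.f) dL) x.r.znl)
                  (nzN M.K Q (axpy 1 dM (dsub x.r.n x.r.f)) x.znm)))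
              (orr (!ieq (tau x.r.f) (Int.add (tau x.r.n) 2))
                (an (nzN M.K Q (axpy 1 dL (dsub x.r.n x.r.f)) x.r.zfl)
                  (nzN M.K Q (dsub (dsub x.r.n x.r.f) dM) x.zfm)))))))

def rl2N (M : CxN) (Q : ℕ) (x : RLn2) : Bool :=
  an (isI M.M.K x.r.W) (an (okW x.r.W) (an (okd x.r.n) (an (okd x.r.f) (an (rx2N M Q x)
  (an (meN Q M.K.P (pkN x.r.W) (ng (fkdN M.K x.r)) M.K.B (nat_lit 1) x.r.KW)
  (an (meN Q M.K.P (Nat.add (ng (fxN M.K x.r.n)) (fdN M.K x.r)) (ng (fkdN M.K x.r)) M.K.B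
    (nat_lit 0) x.r.Kt)
  (an (lm2N M Q x.r.st x.r.n (pkN x.r.W) (Nat.add (ng (fxN M.K x.r.n)) (fdN M.K x.r)) (nat_lit 0)
    x.r.AW x.r.At x.r.BW x.r.Bt)
  (match x.r.jr with
    | true => an (match x.r.st with | 0 => false | _ => true) (an (x.r.KW.inn != x.r.Kt.inn)
        (istwo (JM x.r.AW.inn x.r.At.inn x.r.BW.inn x.r.Bt.inn)))
    | false =>
      an (zaN M.K Q 0 0 (s4 M.M.K x.r.st) (fdN M.K x.r) (fxN M.K x.r.n) (pkN x.r.W)
        (Nat.add (ng (fxN M.K x.r.n)) (fdN M.K x.r)) (nat_lit 0) x.r.Z)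
      (let G := zG M.M.K 0 0 (s4 M.M.K x.r.st) (x.r.Z.map toZn)
       let s := Int.mul (match x.r.dk with | true => 1 | false => -1)
          (Int.sub (b2 x.r.KW.inn) (b2 x.r.Kt.inn))
       let J0 := jm0 x.r.st x.r.AW.inn x.r.At.inn x.r.BW.inn x.r.Bt.inn
       let J1 := jm1 x.r.st x.r.AW.inn x.r.At.inn x.r.BW.inn x.r.Bt.inn
       rgN [0, J0, s, Int.add J0 s, G, Int.add G J1, Int.add G s,
         Int.add (Int.add G J1) s])))))))))

def sl2N (M : CxN) (Q : ℕ) (x : SLn2) : Bool :=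
  an (isI M.M.K x.r.W) (an (okW x.r.W) (an (okd x.r.n) (an (match x.r.ty with
    | 0 => an (isI M.M.K x.r.T) (an (okW x.r.T) (match x.r.st with | 4 => false | _ => true))
    | _ => (match x.r.st with | 0 => true | 1 => true | 3 => true | _ => false))
  (an (ni2N M Q x.r.st x.r.n x.r.en1 x.r.en2 x.r.zn x.r.sc x.sc2 x.r.zl x.zm)
  (an (lm2N M Q x.r.st x.r.n (pkN x.r.W) (sTN M.K x.r) (sofN x.r) x.r.AW x.r.At x.r.BW x.r.Bt)
  (an (zaN M.K Q (ssn1 x.r) (ssn2 x.r) (s4 M.M.K x.r.st) (sSN M.K x.r) (fxN M.K x.r.n)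
    (pkN x.r.W) (sTN M.K x.r) (sofN x.r) x.r.Z)
  (let G := zG M.M.K (ssn1 x.r) (ssn2 x.r) (s4 M.M.K x.r.st) (x.r.Z.map toZn)
   let J0 := jm0 x.r.st x.r.AW.inn x.r.At.inn x.r.BW.inn x.r.Bt.inn
   let J1 := jm1 x.r.st x.r.AW.inn x.r.At.inn x.r.BW.inn x.r.Bt.inn
   rgN [0, J0, G, Int.add G J1])))))))

def kl2N (M : CxN) (Q : ℕ) (x : KLn2) : Bool :=
  an (okd x.r.n) (an (exN M.K Q x.r.n x.r.en1 x.r.en2 x.r.zn)
  (an (nzN M.K Q (dsub x.r.n dL) x.r.zl) (an (nzN M.K Q (axpy 1 dL x.r.n) x.r.zp)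
  (an (nzN M.K Q (dsub x.r.n dM) x.zm) (an (nzN M.K Q (axpy 1 dM x.r.n) x.zpm)
  (match M.K.kf.drop x.r.ty with
    | [] => false
    | (fl, gs) :: _ => an (orr (izero (tau x.r.n)) (match fl with
        | 0 => true
        | 1 => nzN M.K Q (dsub x.r.n M.M.kd) x.r.zk
        | _ => an (nzN M.K Q (dsub x.r.n M.M.kd) x.r.zk)
            (nzN M.K Q (axpy 1 M.M.kd x.r.n) x.r.zk2)))
      (kgN Q (Nat.add (Nat.mul (mr x.r.q1) M.K.P) (fxN M.K x.r.n))
        (Nat.add (Nat.mul (mr x.r.q2) M.K.P) (Nat.add (fRN M.K x.r.n) (fxN M.K x.r.n))) gs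
        x.r.c)))))))

/-- second condition of a justification -/
def ju2N (M : CxN) (Q : ℕ) (n f : List ℤ) (z : NZn) : Bool :=
  an (orr (!ieq (Int.sub (tau n) (tau f)) 1) (nzN M.K Q (axpy 1 dM (dsub n f)) z))
    (orr (!ieq (Int.sub (tau n) (tau f)) (-1)) (nzN M.K Q (dsub (dsub n f) dM) z))

inductive Jun2 where
  | p (s : Bool) (n f : List ℤ) (en1 en2 : ℕ) (zn : NZn) (wf : ℕ) (ef1 ef2 : ℕ) (zf : NZn)
    (z z2 : NZn)
  | pp (s : Bool) (v : List ℤ)
  | e0 (s : Bool) (n : List ℤ) (z : NZn)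
  | ed (s : Bool) (n : List ℤ) (z : NZn)

def toJu2 : Jun2 → Ju2
  | .p s n f en1 en2 zn wf ef1 ef2 zf z z2 =>
    .p s n f (toC en1, toC en2) (toNZ zn) wf (toC ef1, toC ef2) (toNZ zf) (toNZ z) (toNZ z2)
  | .pp s v => .pp s v
  | .e0 s n z => .e0 s n (toNZ z)
  | .ed s n z => .ed s n (toNZ z)

def jc2N (M : CxN) (Q : ℕ) (e : List ℤ) : Jun2 → Bool
  | .p s n f en1 en2 zn wf ef1 ef2 zf z z2 =>
    an (okd n) (an (okd f)
    (an (isN M.K (Nat.add (sgN s (Nat.add (ng (fIN M.K n)) (fIN M.K f))) (pkN e)))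
    (an (exN M.K Q n en1 en2 zn)
    (an (match wf with
      | 0 => leq f []
      | 1 => leq f [1]
      | _ => exN M.K Q f ef1 ef2 zf)
    (an (t1 (Int.sub (tau n) (tau f)))
    (an (nzN M.K Q (axpy (Int.sub (tau f) (tau n)) dL (dsub n f)) z) (ju2N M Q n f z2)))))))
  | .pp s v => an (okd v) (an (isN M.K (Nat.add (sgN s (ng (fIN M.K v))) (pkN e)))
    (match v with
      | a :: _ :: _ :: r => isone2 a && allz r
      | _ => false))
  | .e0 s n z => an (okd n) (an (eqN (pkN e) (sgN s (fIN M.K n))) (an (t1 (tau n))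
      (orr (!izero (tau n)) (nzN M.K Q n z))))
  | .ed s n z => an (okd n) (an (eqN (pkN e) (sgN s (Nat.add (ng (fIN M.K n)) M.K.D)))
      (an (t1 (tau n)) (orr (!izero (tau n)) (nzN M.K Q n z))))

inductive Ten2 where
  | I (e : List ℤ) (L R : Ten2)
  | Q (e : List ℤ) (j : Jun2) (L R : Ten2)
  | C (c : ℕ)
  | N (v : List ℤ) (m : ℕ) (c1 c2 : ℕ) (z : NZn)
  | K (r : KLn2)
  | R (r : RLn2)
  | S (r : SLn2)

def toT2 : Ten2 → Tr2
  | .I e L R => .I e (toT2 L) (toT2 R)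
  | .Q e j L R => .Q e (toJu2 j) (toT2 L) (toT2 R)
  | .C c => .C (toC c).l
  | .N v m c1 c2 z => .N v (mz m) (toC c1) (toC c2) (toNZ z)
  | .K r => .K (toKL2 r)
  | .R r => .R (toRL2 r)
  | .S r => .S (toSL2 r)

def ch2N (M : CxN) : Ten2 → ℕ → Bool
  | .I e L R, Q => an (isI M.M.K e) (an (okc e)
      (an (ch2N M L (ps (Nat.mul (nat_lit 4294967296) (Nat.succ (ng (pkN e)))) Q))
        (ch2N M R (ps (Nat.mul (nat_lit 4294967296) (pkN e)) Q))))
  | .Q e j L R, Q => an (okc e) (an (jc2N M Q e j)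
      (an (ch2N M L (ps (Nat.succ (Nat.mul (nat_lit 4294967296) (ng (pkN e)))) Q))
        (ch2N M R (ps (Nat.succ (Nat.mul (nat_lit 4294967296) (pkN e))) Q))))
  | .C c, Q => ctN Q c (nat_lit 0)
  | .N v m c1 c2 z, Q => an (okd v) (an (nzN M.K Q v z)
      (an (ctN Q c1 (Nat.add (Nat.mul (mn m) M.K.P) (Nat.add (fRN M.K v) (nat_lit 1))))
      (ctN Q c2 (Nat.add (Nat.mul (mr m) M.K.P) (Nat.add (ng (fRN M.K v)) (nat_lit 1))))))
  | .K r, Q => kl2N M Q r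
  | .R r, Q => rl2N M Q r
  | .S r, Q => sl2N M Q r

/-- bounds for the data of a class -/
def okM (M : Cx) : Bool := okK M.K && okf M.E && okf M.T && okd M.kd

def chk2N (M : Cx) (t : Ten2) (Q : List Con) : Bool :=
  an (okM M) (an (okQ Q) (ch2N (pkM M) t (pkQ Q)))

/-! decoding -/

def dR2 (N : ℕ) : RLn2 :=
  rdc N fun sc2 N => rdz N fun zm N => rdz N fun znm N => rdz N fun zfm N =>
  ⟨dR N, sc2, zm, znm, zfm⟩

def dS2 (N : ℕ) : SLn2 := rdc N fun sc2 N => rdz N fun zm N => ⟨dS N, sc2, zm⟩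

def dK2 (N : ℕ) : KLn2 := rdz N fun zm N => rdz N fun zpm N => ⟨dK N, zm, zpm⟩

/-- tags: `0` p, `1` pp, `2` e0, `3` ed -/
def rdj2 {α : Type} (N : ℕ) (k : Jun2 → ℕ → α) : α :=
  rdn (nat_lit 4) N fun t N => rdb N fun s N => rdd N fun n N =>
    Nat.rec (motive := fun _ => α)
      (rdd N fun f N => rdc N fun en1 N => rdc N fun en2 N => rdz N fun zn N =>
        rdn (nat_lit 4) N fun wf N => rdc N fun ef1 N => rdc N fun ef2 N => rdz N fun zf N =>
        rdz N fun z N => rdz N fun z2 N => k (.p s n f en1 en2 zn wf ef1 ef2 zf z z2) N)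
      (fun t _ => Nat.rec (motive := fun _ => α) (k (.pp s n) N)
        (fun t _ => rdz N fun z N =>
          Nat.rec (motive := fun _ => α) (k (.e0 s n z) N) (fun _ _ => k (.ed s n z) N) t) t) t

/-! nodes -/

def ni (N : ℕ) (L R : Ten2) : Ten2 := rde N fun e _ => .I e L R
def nq (N : ℕ) (L R : Ten2) : Ten2 := rde N fun e N => rdj2 N fun j _ => .Q e j L R
def nc (N : ℕ) : Ten2 := .C N
def nn (N : ℕ) : Ten2 :=
  rdd N fun v N => rdn (nat_lit 16) N fun m N => rdc N fun c1 N => rdc N fun c2 N =>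
    rdz N fun z _ => .N v m c1 c2 z
def nk (N : ℕ) : Ten2 := .K (dK2 N)
def nr (N : ℕ) : Ten2 := .R (dR2 N)
def ns (N : ℕ) : Ten2 := .S (dS2 N)

end Helper81.PC
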