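import Pool.Agent.Helper81.PC.St
import Mathlib.Tactic.Linarith
import Mathlib.Tactic.Ring

set_option autoImplicit false

/-!
# Packed checker (S15955), module A: `axpy`
-/

namespace Helper81.PC

open Helper11.CT Helper55.PC

theorem hA : StA := by
  intro k e
  induction e with
  | nil =>
    intro f
    refine ⟨fun B => by simp, by simp, ?_⟩
    intro α β h0 h1 h2 h3 x hx
    rw [axpy_nil] at hx
    have := h3 x hx
    have h4 : 0 ≤ |k| * α := mul_nonneg (abs_nonneg k) h0
    linarith
  | cons c e ih =>
    intro f
    cases f with
    | nil =>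
      obtain ⟨i1, i2, i3⟩ := ih []
      refine ⟨fun B => ?_, ?_, ?_⟩
      · rw [axpy_cn, phi_cons, phi_cons, i1 B, phi_nil]
        ring
      · rw [axpy_cn]
        simp only [List.length_cons, List.length_nil] at i2 ⊢
        omega
      · intro α β h0 h1 h2 h3 x hx
        rw [axpy_cn, List.mem_cons] at hx
        rcases hx with rfl | hx
        · rw [abs_mul]
          have h5 := mul_le_mul_of_nonneg_left (h2 c List.mem_cons_self) (abs_nonneg k)
          linarith
        · exact i3 α β h0 h1 (fun y hy => h2 y (List.mem_cons_of_mem _ hy)) (by simp) x hx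
    | cons d f =>
      obtain ⟨i1, i2, i3⟩ := ih f
      refine ⟨fun B => ?_, ?_, ?_⟩
      · rw [axpy_cc, phi_cons, phi_cons, phi_cons, i1 B]
        ring
      · rw [axpy_cc]
        simp only [List.length_cons] at i2 ⊢
        omega
      · intro α β h0 h1 h2 h3 x hx
        rw [axpy_cc, List.mem_cons] at hx
        rcases hx with rfl | hx
        · have h5 := mul_le_mul_of_nonneg_left (h2 c List.mem_cons_self) (abs_nonneg k)
          have h6 := h3 d List.mem_cons_self
          have h7 := abs_add_le (k * c) d
          rw [abs_mul] at h7
          linarith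
        · exact i3 α β h0 h1 (fun y hy => h2 y (List.mem_cons_of_mem _ hy))
            (fun y hy => h3 y (List.mem_cons_of_mem _ hy)) x hx

end Helper81.PC
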