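import Pool.Agent.Helper81.PC.Sound
import Pool.Agent.Helper81.PC.Defs2

set_option autoImplicit false

/-!
# The packed checker for trees of the second kind: soundness, first part
-/

namespace Helper81.PC

open Helper11.CT Helper55.PC Pool.Agent.Helper58.PC

/-- what is used about a class of the second kind -/
structure Good2 (M : Cx) : Prop where
  K : Good M.K
  E : Rep 4 M.E (pkN M.E)
  T : Rep 4 M.T (pkN M.T)
  kl : M.kd.length ≤ 6
  kb : ∀ x ∈ M.kd, |x| ≤ 8

theorem okM_good (M : Cx) (h : okM M = true) : Good2 M := by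
  have h' : (okK M.K && okf M.E && okf M.T && okd M.kd) = true := h
  rw [Bool.and_eq_true, Bool.and_eq_true, Bool.and_eq_true] at h'
  obtain ⟨⟨⟨h1, h2⟩, h3⟩, h4⟩ := h'
  obtain ⟨e1, e2⟩ := okf_bd h2
  obtain ⟨t1, t2⟩ := okf_bd h3
  obtain ⟨k1, k2⟩ := okd_bd h4
  exact ⟨sG M.K h1, Rep.pk e1 e2 (by norm_num), Rep.pk t1 t2 (by norm_num), k1, k2⟩

theorem dM_bd : ∀ x ∈ dM, |x| ≤ (1 : ℤ) := by
  intro x hx
  simp only [dM, List.mem_cons, List.not_mem_nil, or_false] at hx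
  rcases hx with rfl | rfl | rfl <;> decide

theorem dM_len (m : ℕ) (hm : 3 ≤ m) : dM.length ≤ m := hm

theorem rB_rep (M : Cx) (hM : Good2 M) (st : ℕ) (n : List ℤ) (hn : ∀ x ∈ n, |x| ≤ 24) :
    Rep 600 (rB M st n) (rBN (pkM M) st n) := by
  have h1 : Rep 580 (axpy (-1) M.K.C (fR M.K n)) (Nat.add (ng (pkK M.K).C) (fRN (pkK M.K) n)) :=
    P_sub sA hM.K.C (hM.K.R n hn) (by norm_num) (by norm_num) (by norm_num)
  have h2 : Rep 600 (axpy 1 M.T (axpy (-1) M.K.C (fR M.K n)))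
      (Nat.add (pkN M.T) (Nat.add (ng (pkK M.K).C) (fRN (pkK M.K) n))) :=
    P_add sA hM.T h1 (by norm_num) (by norm_num) (by norm_num)
  match st with
  | 0 => exact h2
  | 1 => exact h1.mono (by norm_num)
  | 2 => exact h1.mono (by norm_num)
  | _ + 3 => exact h2

theorem lm2_snd (M : Cx) (Q : List Con) (st : ℕ) (n W t off : List ℤ) (Wn tn offn : ℕ)
    (AW At BW Bt : Memn) (hM : Good2 M) (hQ : GQ Q) (hn : ∀ x ∈ n, |x| ≤ 24) (hW : Rep 5000 W Wn)
    (ht : Rep 5000 t tn) (ho : Rep 1 off offn)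
    (h : lm2N (pkM M) (pkQ Q) st n Wn tn offn AW At BW Bt = true) :
    lmem2 M Q st n W t off (toMem AW) (toMem At) (toMem BW) (toMem Bt) = true := by
  have hr := ((hM.K.R n hn).mono (show (576 : ℤ) ≤ 10000 by norm_num)).neg
  have hb := ((rB_rep M hM st n hn).mono (show (600 : ℤ) ≤ 10000 by norm_num)).neg
  have hW' := hW.mono (show (5000 : ℤ) ≤ 10000 by norm_num)
  have ht' := ht.mono (show (5000 : ℤ) ≤ 10000 by norm_num)
  have h' : an (meN (pkQ Q) (pkK M.K).P Wn (ng (fRN (pkK M.K) n)) (pkK M.K).A 1 AW)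
    (an (meN (pkQ Q) (pkK M.K).P tn (ng (fRN (pkK M.K) n)) (pkK M.K).A offn At)
      (match (generalizing := false) st with
        | 0 => true
        | _ => an (meN (pkQ Q) (pkK M.K).P Wn (ng (rBN (pkM M) st n)) (pkK M.K).A 1 BW)
            (meN (pkQ Q) (pkK M.K).P tn (ng (rBN (pkM M) st n)) (pkK M.K).A offn Bt))) = true := h
  have r1 := sK Q M.K.P W (fR M.K n) M.K.A [1] _ _ _ _ _ AW hQ hM.K.P hW' hr hM.K.A
    (Rep.one le_rfl) (an1 h')
  have r2 := sK Q M.K.P t (fR M.K n) M.K.A off _ _ _ _ _ At hQ hM.K.P ht' hr hM.K.A ho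
    (an1 (an2 h'))
  have h3 := an2 (an2 h')
  show (memc Q M.K.P W (fR M.K n) M.K.A [1] (toMem AW) &&
    memc Q M.K.P t (fR M.K n) M.K.A off (toMem At) &&
    (match (generalizing := false) st with
      | 0 => true
      | _ => memc Q M.K.P W (rB M st n) M.K.A [1] (toMem BW) &&
        memc Q M.K.P t (rB M st n) M.K.A off (toMem Bt))) = true
  refine and_mk (and_mk r1 r2) ?_
  match st, h3, hb with
  | 0, _, _ => rfl
  | st + 1, h3, hb =>
    have r3 := sK Q M.K.P W (rB M (st + 1) n) M.K.A [1] _ _ _ _ _ BW hQ hM.K.P hW' hb hM.K.A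
      (Rep.one le_rfl) (an1 h3)
    have r4 := sK Q M.K.P t (rB M (st + 1) n) M.K.A off _ _ _ _ _ Bt hQ hM.K.P ht' hb hM.K.A ho
      (an2 h3)
    exact and_mk r3 r4

theorem ni2_snd (M : Cx) (Q : List Con) (st : ℕ) (n : List ℤ) (e1 e2 : ℕ) (zn : NZn) (sc sc2 : ℕ)
    (zl zm : NZn) (hM : Good2 M) (hQ : GQ Q) (hn : n.length ≤ 6) (hb : ∀ x ∈ n, |x| ≤ 8)
    (h : ni2N (pkM M) (pkQ Q) st n e1 e2 zn sc sc2 zl zm = true) :
    nix2 M Q st n (toC e1, toC e2) (toNZ zn) (toC sc) (toC sc2) (toNZ zl) (toNZ zm) = true := by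
  have hK := hM.K
  have hb' : ∀ x ∈ n, |x| ≤ 24 := fun x hx => (hb x hx).trans (by norm_num)
  have hn' : n.length ≤ 7 := hn.trans (by norm_num)
  have hd1 : (dsub n dL).length ≤ 7 := ax_len sA (dL_len 7 (by norm_num)) hn'
  have hd2 : ∀ x ∈ dsub n dL, |x| ≤ 24 :=
    ax_bd sA (by norm_num) (by norm_num) dL_bd hb (by decide) (by norm_num)
  have hm1 : (axpy 1 dM n).length ≤ 7 := ax_len sA (dM_len 7 (by norm_num)) hn'
  have hm2 : ∀ x ∈ axpy 1 dM n, |x| ≤ 24 :=
    ax_bd sA (by norm_num) (by norm_num) dM_bd hb (by decide) (by norm_num)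
  have hl : nzN (pkK M.K) (pkQ Q) (dsub n dL) zl = true →
      nzc M.K Q (dsub n dL) (toNZ zl) = true := sI.1 M.K Q (dsub n dL) zl hK hQ hd1 hd2
  have hm : nzN (pkK M.K) (pkQ Q) (axpy 1 dM n) zm = true →
      nzc M.K Q (axpy 1 dM n) (toNZ zm) = true := sI.1 M.K Q (axpy 1 dM n) zm hK hQ hm1 hm2
  have hx : exN (pkK M.K) (pkQ Q) n e1 e2 zn = true →
      exc M.K Q n (toC e1, toC e2) (toNZ zn) = true :=
    sI.2 M.K Q n e1 e2 zn hK hQ hn' hb'
  have hI := hK.I n hb'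
  match st, h with
  | 0, h =>
    have h' : an (exN (pkK M.K) (pkQ Q) n e1 e2 zn)
        (an (ctN (pkQ Q) sc (ng (fIN (pkK M.K) n) + (pkK M.K).J))
        (an (orr (ieq (tau n) 1) (nzN (pkK M.K) (pkQ Q) (dsub n dL) zl))
        (an (ctN (pkQ Q) sc2 (ng (pkK M.K).J + (pkN M.E + (ng (pkK M.K).D + fIN (pkK M.K) n))))
        (orr (ieq (tau n) 1) (nzN (pkK M.K) (pkQ Q) (axpy 1 dM n) zm))))) = true := h
    show (exc M.K Q n (toC e1, toC e2) (toNZ zn) &&
        cert Q (toC sc) (axpy (-1) (fI M.K n) M.K.J) &&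
        (ieq (tau n) 1 || nzc M.K Q (dsub n dL) (toNZ zl)) &&
        cert Q (toC sc2) (axpy (-1) M.K.J (axpy 1 M.E (axpy (-1) M.K.D (fI M.K n)))) &&
        (ieq (tau n) 1 || nzc M.K Q (axpy 1 dM n) (toNZ zm))) = true
    have h2 := an2 h'
    have h3 := an2 h2
    have h4 := an2 h3
    have g1 := sE Q sc _ _ hQ (P_sub sA hI hK.J (by norm_num) (by norm_num)
      (show (576 : ℤ) + 4 ≤ 100000 by norm_num)) (an1 h2)
    have q1 : Rep 580 (axpy (-1) M.K.D (fI M.K n)) _ :=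
      P_sub sA hK.D hI (by norm_num) (by norm_num) (by norm_num)
    have q2 : Rep 584 (axpy 1 M.E (axpy (-1) M.K.D (fI M.K n))) _ :=
      P_add sA hM.E q1 (by norm_num) (by norm_num) (by norm_num)
    have q3 : Rep 100000 (axpy (-1) M.K.J (axpy 1 M.E (axpy (-1) M.K.D (fI M.K n)))) _ :=
      P_sub sA hK.J q2 (by norm_num) (by norm_num) (by norm_num)
    have g2 := sE Q sc2 _ _ hQ q3 (an1 h4)
    exact and_mk (and_mk (and_mk (and_mk (hx (an1 h')) g1) (orr_or (an1 h3) hl)) g2)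
      (orr_or (an2 h4) hm)
  | 1, h =>
    have h' : an (exN (pkK M.K) (pkQ Q) n e1 e2 zn)
        (an (ctN (pkQ Q) sc (ng (pkK M.K).J + fIN (pkK M.K) n))
        (orr (ieq (tau n) 1) (nzN (pkK M.K) (pkQ Q) (dsub n dL) zl))) = true := h
    show (exc M.K Q n (toC e1, toC e2) (toNZ zn) &&
        cert Q (toC sc) (axpy (-1) M.K.J (fI M.K n)) &&
        (ieq (tau n) 1 || nzc M.K Q (dsub n dL) (toNZ zl))) = true
    have g1 := sE Q sc _ _ hQ (P_sub sA hK.J hI (by norm_num) (by norm_num)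
      (show (4 : ℤ) + 576 ≤ 100000 by norm_num)) (an1 (an2 h'))
    exact and_mk (and_mk (hx (an1 h')) g1) (orr_or (an2 (an2 h')) hl)
  | 2, h => exact h
  | 3, h =>
    have h' : an (exN (pkK M.K) (pkQ Q) n e1 e2 zn)
        (an (ctN (pkQ Q) sc (ng (fIN (pkK M.K) n) + (ng (pkN M.E) + ((pkK M.K).D + (pkK M.K).J))))
        (orr (ieq (tau n) 1) (nzN (pkK M.K) (pkQ Q) (axpy 1 dM n) zm))) = true := h
    show (exc M.K Q n (toC e1, toC e2) (toNZ zn) &&
        cert Q (toC sc) (axpy (-1) (fI M.K n) (axpy (-1) M.E (axpy 1 M.K.D M.K.J))) &&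
        (ieq (tau n) 1 || nzc M.K Q (axpy 1 dM n) (toNZ zm))) = true
    have q1 : Rep 8 (axpy 1 M.K.D M.K.J) _ :=
      P_add sA hK.D hK.J (by norm_num) (by norm_num) (by norm_num)
    have q2 : Rep 12 (axpy (-1) M.E (axpy 1 M.K.D M.K.J)) _ :=
      P_sub sA hM.E q1 (by norm_num) (by norm_num) (by norm_num)
    have q3 : Rep 100000 (axpy (-1) (fI M.K n) (axpy (-1) M.E (axpy 1 M.K.D M.K.J))) _ :=
      P_sub sA hI q2 (by norm_num) (by norm_num) (by norm_num)
    have g1 := sE Q sc _ _ hQ q3 (an1 (an2 h'))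
    exact and_mk (and_mk (hx (an1 h')) g1) (orr_or (an2 (an2 h')) hm)
  | 4, h => exact h
  | _ + 5, h => exact absurd h (by show ¬ (false = true); simp)

theorem rx2_snd (M : Cx) (Q : List Con) (x : RLn2) (hM : Good2 M) (hQ : GQ Q)
    (hn : okd x.r.n = true) (hf : okd x.r.f = true)
    (h : rx2N (pkM M) (pkQ Q) x = true) : rlix2 M Q (toRL2 x) = true := by
  have hK := hM.K
  obtain ⟨hn1, hn2⟩ := okd_bd hn
  obtain ⟨hf1, hf2⟩ := okd_bd hf
  have hf' : ∀ y ∈ x.r.f, |y| ≤ 24 := fun y hy => (hf2 y hy).trans (by norm_num)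
  have hnf1 : (dsub x.r.n x.r.f).length ≤ 7 :=
    ax_len sA (hf1.trans (by norm_num)) (hn1.trans (by norm_num))
  have hnf2 : ∀ y ∈ dsub x.r.n x.r.f, |y| ≤ 16 :=
    ax_bd sA (by norm_num) (by norm_num) hf2 hn2 (by decide) (by norm_num)
  have lL := fun (k : ℤ) => ax_len (k := k) sA (dL_len 7 (by norm_num)) hnf1
  have lM := fun (k : ℤ) => ax_len (k := k) sA (dM_len 7 (by norm_num)) hnf1
  have bL := fun (k : ℤ) (hk : |k| = 1) => ax_bd (γ := 24) (k := k) sA (by norm_num) (by norm_num)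
    dL_bd hnf2 hk (by norm_num)
  have bM := fun (k : ℤ) (hk : |k| = 1) => ax_bd (γ := 24) (k := k) sA (by norm_num) (by norm_num)
    dM_bd hnf2 hk (by norm_num)
  have o1 : |(-1 : ℤ)| = 1 := by decide
  have o2 : |(1 : ℤ)| = 1 := by decide
  have g1 := sI.1 M.K Q (dsub x.r.n x.r.f) x.r.znf hK hQ hnf1
    fun y hy => (hnf2 y hy).trans (by norm_num)
  have g2 := sI.1 M.K Q (dsub (dsub x.r.n x.r.f) dL) x.r.znl hK hQ (lL (-1)) (bL (-1) o1)
  have g3 := sI.1 M.K Q (axpy 1 dL (dsub x.r.n x.r.f)) x.r.zfl hK hQ (lL 1) (bL 1 o2)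
  have g4 := sI.1 M.K Q (axpy 1 dM (dsub x.r.n x.r.f)) x.znm hK hQ (lM 1) (bM 1 o2)
  have g5 := sI.1 M.K Q (dsub (dsub x.r.n x.r.f) dM) x.zfm hK hQ (lM (-1)) (bM (-1) o1)
  have g0 := sI.2 M.K Q x.r.f x.r.ef1 x.r.ef2 x.r.zf hK hQ (hf1.trans (by norm_num)) hf'
  have gn := ni2_snd M Q x.r.st x.r.n x.r.en1 x.r.en2 x.r.zn x.r.sc x.sc2 x.r.zl x.zm hM hQ hn1 hn2
  obtain ⟨⟨st, jr, f0, dk, n, f, W, en1, en2, ef1, ef2, sc, zn, zf, zl, znf, znl, zfl, KW, Kt, AW,
    At, BW, Bt, Z⟩, sc2, zm, znm, zfm⟩ := x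
  cases f0 with
  | true =>
    have h' : an (ni2N (pkM M) (pkQ Q) st n en1 en2 zn sc sc2 zl zm)
      (leq f [] && jr && (match (generalizing := false) st with
        | 1 => true | 3 => true | _ => false)) = true := h
    show (nix2 M Q st n (toC en1, toC en2) (toNZ zn) (toC sc) (toC sc2) (toNZ zl) (toNZ zm) &&
      (leq f [] && jr && (match (generalizing := false) st with
        | 1 => true | 3 => true | _ => false))) = true
    exact and_mk (gn (an1 h')) (an2 h')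
  | false =>
    have h' : an (ni2N (pkM M) (pkQ Q) st n en1 en2 zn sc sc2 zl zm)
      (an (exN (pkK M.K) (pkQ Q) f ef1 ef2 zf)
        (an (orr (ieq (tau n) (tau f)) (nzN (pkK M.K) (pkQ Q) (dsub n f) znf))
        (an (match (generalizing := false) st with
          | 1 => orr (ieq (tau n) (Int.add (tau f) 1))
              (nzN (pkK M.K) (pkQ Q) (dsub (dsub n f) dL) znl)
          | 3 => orr (ieq (tau n) (Int.add (tau f) 1))
              (nzN (pkK M.K) (pkQ Q) (axpy 1 dM (dsub n f)) znm)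
          | _ => true)
        (match (generalizing := false) st with
          | 2 => true
          | 4 => true
          | _ => an (orr (!ieq (tau n) (Int.add (tau f) 2))
                (an (nzN (pkK M.K) (pkQ Q) (dsub (dsub n f) dL) znl)
                  (nzN (pkK M.K) (pkQ Q) (axpy 1 dM (dsub n f)) znm)))
              (orr (!ieq (tau f) (Int.add (tau n) 2))
                (an (nzN (pkK M.K) (pkQ Q) (axpy 1 dL (dsub n f)) zfl)
                  (nzN (pkK M.K) (pkQ Q) (dsub (dsub n f) dM) zfm))))))) = true := h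
    show (nix2 M Q st n (toC en1, toC en2) (toNZ zn) (toC sc) (toC sc2) (toNZ zl) (toNZ zm) &&
      (exc M.K Q f (toC ef1, toC ef2) (toNZ zf) &&
        (ieq (tau n) (tau f) || nzc M.K Q (dsub n f) (toNZ znf)) &&
        (match (generalizing := false) st with
          | 1 => ieq (tau n) (Int.add (tau f) 1) ||
              nzc M.K Q (dsub (dsub n f) dL) (toNZ znl)
          | 3 => ieq (tau n) (Int.add (tau f) 1) ||
              nzc M.K Q (axpy 1 dM (dsub n f)) (toNZ znm)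
          | _ => true) &&
        (match (generalizing := false) st with
          | 2 => true
          | 4 => true
          | _ => ((!ieq (tau n) (Int.add (tau f) 2)) ||
                (nzc M.K Q (dsub (dsub n f) dL) (toNZ znl) &&
                  nzc M.K Q (axpy 1 dM (dsub n f)) (toNZ znm))) &&
              ((!ieq (tau f) (Int.add (tau n) 2)) ||
                (nzc M.K Q (axpy 1 dL (dsub n f)) (toNZ zfl) &&
                  nzc M.K Q (dsub (dsub n f) dM) (toNZ zfm)))))) = true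
    have h2 := an2 h'
    have h3 := an2 h2
    have h4 := an2 h3
    have k1 := fun (u : an (nzN (pkK M.K) (pkQ Q) (dsub (dsub n f) dL) znl)
        (nzN (pkK M.K) (pkQ Q) (axpy 1 dM (dsub n f)) znm) = true) =>
      and_mk (g2 (an1 u)) (g4 (an2 u))
    have k2 := fun (u : an (nzN (pkK M.K) (pkQ Q) (axpy 1 dL (dsub n f)) zfl)
        (nzN (pkK M.K) (pkQ Q) (dsub (dsub n f) dM) zfm) = true) =>
      and_mk (g3 (an1 u)) (g5 (an2 u))
    refine and_mk (gn (an1 h')) (and_mk (and_mk (and_mk (g0 (an1 h2)) ?_) ?_) ?_)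
    · exact orr_or (an1 h3) g1
    · have h5 := an1 h4
      match st, h5 with
      | 0, _ => rfl
      | 1, h5 => exact orr_or h5 g2
      | 2, _ => rfl
      | 3, h5 => exact orr_or h5 g4
      | _ + 4, _ => rfl
    · have h5 := an2 h4
      match st, h5 with
      | 0, h5 => exact and_mk (orr_or (an1 h5) k1) (orr_or (an2 h5) k2)
      | 1, h5 => exact and_mk (orr_or (an1 h5) k1) (orr_or (an2 h5) k2)
      | 2, _ => rfl
      | 3, h5 => exact and_mk (orr_or (an1 h5) k1) (orr_or (an2 h5) k2)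
      | 4, _ => rfl
      | _ + 5, h5 => exact and_mk (orr_or (an1 h5) k1) (orr_or (an2 h5) k2)

end Helper81.PC
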