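import Pool.Agent.Helper81.PC.Snd2a

set_option autoImplicit false

/-!
# The packed checker for trees of the second kind: soundness, leaves
-/

namespace Helper81.PC

open Helper11.CT Helper55.PC Pool.Agent.Helper58.PC

theorem rl2_snd (M : Cx) (Q : List Con) (x : RLn2) (hM : Good2 M) (hQ : GQ Q)
    (h : rl2N (pkM M) (pkQ Q) x = true) : rlc2 M Q (toRL2 x) = true := by
  have h1 : an (isI M.K x.r.W) (an (okW x.r.W) (an (okd x.r.n) (an (okd x.r.f)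
    (an (rx2N (pkM M) (pkQ Q) x)
    (an (meN (pkQ Q) (pkK M.K).P (pkN x.r.W) (ng (fkdN (pkK M.K) x.r)) (pkK M.K).B 1 x.r.KW)
    (an (meN (pkQ Q) (pkK M.K).P (ng (fxN (pkK M.K) x.r.n) + fdN (pkK M.K) x.r)
      (ng (fkdN (pkK M.K) x.r)) (pkK M.K).B 0 x.r.Kt)
    (an (lm2N (pkM M) (pkQ Q) x.r.st x.r.n (pkN x.r.W)
      (ng (fxN (pkK M.K) x.r.n) + fdN (pkK M.K) x.r) 0 x.r.AW x.r.At x.r.BW x.r.Bt)
    (match x.r.jr with
    | true => an (match x.r.st with | 0 => false | _ => true) (an (x.r.KW.inn != x.r.Kt.inn)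
        (istwo (JM x.r.AW.inn x.r.At.inn x.r.BW.inn x.r.Bt.inn)))
    | false =>
      an (zaN (pkK M.K) (pkQ Q) 0 0 (s4 M.K x.r.st) (fdN (pkK M.K) x.r) (fxN (pkK M.K) x.r.n)
        (pkN x.r.W) (ng (fxN (pkK M.K) x.r.n) + fdN (pkK M.K) x.r) 0 x.r.Z)
      (let G := zG M.K 0 0 (s4 M.K x.r.st) (x.r.Z.map toZn)
       let s := Int.mul (match x.r.dk with | true => 1 | false => -1)
          (Int.sub (b2 x.r.KW.inn) (b2 x.r.Kt.inn))
       let J0 := jm0 x.r.st x.r.AW.inn x.r.At.inn x.r.BW.inn x.r.Bt.inn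
       let J1 := jm1 x.r.st x.r.AW.inn x.r.At.inn x.r.BW.inn x.r.Bt.inn
       rgN [0, J0, s, Int.add J0 s, G, Int.add G J1, Int.add G s,
         Int.add (Int.add G J1) s])))))))))  = true := h
  rw [an_iff, an_iff, an_iff, an_iff, an_iff, an_iff, an_iff, an_iff] at h1
  obtain ⟨a1, a2, a3, a4, a5, a6, a7, a8, a9⟩ := h1
  have hg := hM.K
  obtain ⟨w1, w2⟩ := okW_bd a2
  have n3 : ∀ y ∈ x.r.n, |y| ≤ 24 := fun y hy => ((okd_bd a3).2 y hy).trans (by norm_num)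
  have f3 : ∀ y ∈ x.r.f, |y| ≤ 24 := fun y hy => ((okd_bd a4).2 y hy).trans (by norm_num)
  have rW : Rep 5000 x.r.W (pkN x.r.W) := Rep.pk w1 (fun y hy => (w2 y hy).trans (by norm_num))
    (by norm_num)
  have rd := Pool.Agent.Helper62.PC.rep_fd sA hg x.r f3
  have rk := Pool.Agent.Helper62.PC.rep_fkd sA hg x.r f3
  have rx := hg.x x.r.n n3
  have rt : Rep 5000 (axpy (-1) (fx M.K x.r.n) (fd M.K (toRL x.r)))
      (ng (fxN (pkK M.K) x.r.n) + fdN (pkK M.K) x.r) :=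
    P_sub sA rx rd (by norm_num) (by norm_num) (by norm_num)
  have b5 := rx2_snd M Q x hM hQ a3 a4 a5
  have b6 := sK Q M.K.P x.r.W (fkd M.K (toRL x.r)) M.K.B [1] _ _ _ _ _ x.r.KW hQ hg.P
    (rW.mono (by norm_num)) ((rk.mono (by norm_num)).neg) hg.B (Rep.one le_rfl) a6
  have b7 := sK Q M.K.P _ (fkd M.K (toRL x.r)) M.K.B [] _ _ _ _ _ x.r.Kt hQ hg.P
    (rt.mono (by norm_num)) ((rk.mono (by norm_num)).neg) hg.B (Rep.nil _) a7
  have b8 := lm2_snd M Q x.r.st x.r.n x.r.W (axpy (-1) (fx M.K x.r.n) (fd M.K (toRL x.r))) [] _ _ _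
    x.r.AW x.r.At x.r.BW x.r.Bt hM hQ n3 rW rt (Rep.nil _) a8
  have b9 : (match (toRL x.r).jr with
    | true => (match (toRL x.r).st with | 0 => false | _ => true) &&
        ((toRL x.r).KW.inn != (toRL x.r).Kt.inn) &&
        istwo (JM (toRL x.r).AW.inn (toRL x.r).At.inn (toRL x.r).BW.inn (toRL x.r).Bt.inn)
    | false =>
      zall M.K Q 0 0 (s4 M.K (toRL x.r).st) (fd M.K (toRL x.r)) (fx M.K (toRL x.r).n) (toRL x.r).W
        (axpy (-1) (fx M.K (toRL x.r).n) (fd M.K (toRL x.r))) [] (toRL x.r).Z &&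
      (let G := zG M.K 0 0 (s4 M.K (toRL x.r).st) (toRL x.r).Z
       let s := Int.mul (match (toRL x.r).dk with | true => 1 | false => -1)
          (Int.sub (b2 (toRL x.r).KW.inn) (b2 (toRL x.r).Kt.inn))
       let J0 := jm0 (toRL x.r).st (toRL x.r).AW.inn (toRL x.r).At.inn (toRL x.r).BW.inn
         (toRL x.r).Bt.inn
       let J1 := jm1 (toRL x.r).st (toRL x.r).AW.inn (toRL x.r).At.inn (toRL x.r).BW.inn
         (toRL x.r).Bt.inn
       rng [0, J0, s, Int.add J0 s, G, Int.add G J1, Int.add G s, Int.add (Int.add G J1) s])) =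
         true := by
    obtain ⟨⟨st, jr, f0, dk, n, f, W, en1, en2, ef1, ef2, sc, zn, zf, zl, znf, znl, zfl, KW, Kt,
      AW, At, BW, Bt, Z⟩, sc2, zm, znm, zfm⟩ := x
    cases jr with
    | true =>
      have a9' := (an_iff _ _).1 a9
      have a10 := (an_iff _ _).1 a9'.2
      exact and_mk (and_mk a9'.1 a10.1) a10.2
    | false =>
      have a9' := (an_iff _ _).1 a9
      have c1 := sL.2 M.K Q 0 0 (s4 M.K st) _ _ _ _ [] _ _ _ _ _ Z hg hQ (rd.mono (by norm_num))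
        (rx.mono (by norm_num)) rW rt (Rep.nil _) a9'.1
      have c2 := sN.2 _ (by simp) a9'.2
      exact and_mk c1 c2
  show (isI M.K x.r.W && rlix2 M Q (toRL2 x) &&
    memc Q M.K.P x.r.W (fkd M.K (toRL x.r)) M.K.B [1] (toMem x.r.KW) &&
    memc Q M.K.P (axpy (-1) (fx M.K x.r.n) (fd M.K (toRL x.r))) (fkd M.K (toRL x.r)) M.K.B []
      (toMem x.r.Kt) &&
    lmem2 M Q x.r.st x.r.n x.r.W (axpy (-1) (fx M.K x.r.n) (fd M.K (toRL x.r))) [] (toMem x.r.AW)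
      (toMem x.r.At) (toMem x.r.BW) (toMem x.r.Bt) && _) = true
  rw [a1, b5, b6, b7, b8]
  exact b9

theorem sl2_snd (M : Cx) (Q : List Con) (x : SLn2) (hM : Good2 M) (hQ : GQ Q)
    (h : sl2N (pkM M) (pkQ Q) x = true) : slc2 M Q (toSL2 x) = true := by
  have hG := hM.K
  have h' : an (isI M.K x.r.W) (an (okW x.r.W) (an (okd x.r.n) (an (match x.r.ty with
    | 0 => an (isI M.K x.r.T) (an (okW x.r.T) (match x.r.st with | 4 => false | _ => true))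
    | _ => (match x.r.st with | 0 => true | 1 => true | 3 => true | _ => false))
  (an (ni2N (pkM M) (pkQ Q) x.r.st x.r.n x.r.en1 x.r.en2 x.r.zn x.r.sc x.sc2 x.r.zl x.zm)
  (an (lm2N (pkM M) (pkQ Q) x.r.st x.r.n (pkN x.r.W) (sTN (pkK M.K) x.r) (sofN x.r) x.r.AW x.r.At
    x.r.BW x.r.Bt)
  (an (zaN (pkK M.K) (pkQ Q) (ssn1 x.r) (ssn2 x.r) (s4 M.K x.r.st) (sSN (pkK M.K) x.r)
    (fxN (pkK M.K) x.r.n) (pkN x.r.W) (sTN (pkK M.K) x.r) (sofN x.r) x.r.Z)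
  (let G := zG M.K (ssn1 x.r) (ssn2 x.r) (s4 M.K x.r.st) (x.r.Z.map toZn)
   let J0 := jm0 x.r.st x.r.AW.inn x.r.At.inn x.r.BW.inn x.r.Bt.inn
   let J1 := jm1 x.r.st x.r.AW.inn x.r.At.inn x.r.BW.inn x.r.Bt.inn
   rgN [0, J0, G, Int.add G J1]))))))) = true := h
  rw [an_iff, an_iff, an_iff, an_iff, an_iff, an_iff, an_iff] at h'
  obtain ⟨h1, h2, h3, h4, h5, h6, h7, h8⟩ := h'
  obtain ⟨n1, n2⟩ := okd_bd h3
  have n3 : ∀ y ∈ x.r.n, |y| ≤ 24 := fun y hy => (n2 y hy).trans (by norm_num)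
  have hT : x.r.ty = 0 → okW x.r.T = true := by
    intro h0
    rw [h0] at h4
    exact ((an_iff _ _).1 ((an_iff _ _).1 h4).2).1
  have h4' : (match x.r.ty with
    | 0 => isI M.K x.r.T && (match x.r.st with | 4 => false | _ => true)
    | _ => (match x.r.st with | 0 => true | 1 => true | 3 => true | _ => false)) = true := by
    split at h4
    · have h5 := (an_iff _ _).1 h4
      have h6 := (an_iff _ _).1 h5.2
      exact and_mk h5.1 h6.2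
    · exact h4
  obtain ⟨w1, w2⟩ := okW_bd h2
  have hW : Rep 5000 x.r.W (pkN x.r.W) :=
    Rep.pk w1 (fun y hy => (w2 y hy).trans (by norm_num)) (by norm_num)
  have hsS := (P_sS sA M.K hG x.r n3 hT).mono (show (2000 : ℤ) ≤ 5000 by norm_num)
  have hsT := P_sT sA M.K hG x.r n3 hT
  have hso := P_so x.r
  have hx := (hG.x x.r.n n3).mono (show (1152 : ℤ) ≤ 5000 by norm_num)
  have r1 := ni2_snd M Q x.r.st x.r.n x.r.en1 x.r.en2 x.r.zn x.r.sc x.sc2 x.r.zl x.zm hM hQ n1 n2 h5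
  have r2 := lm2_snd M Q x.r.st x.r.n x.r.W (sT M.K (toSL x.r)) (soff (toSL x.r)) _ _ _ x.r.AW
    x.r.At x.r.BW x.r.Bt hM hQ n3 hW hsT hso h6
  have r3 := sL.2 M.K Q (ssn1 x.r) (ssn2 x.r) (s4 M.K x.r.st) (sS M.K (toSL x.r)) (fx M.K x.r.n)
    x.r.W (sT M.K (toSL x.r)) (soff (toSL x.r)) _ _ _ _ _ x.r.Z hG hQ hsS hx hW hsT hso h7
  have r4 := sN.2 _ (by simp) h8
  show (isI M.K x.r.W && (match x.r.ty with
    | 0 => isI M.K x.r.T && (match x.r.st with | 4 => false | _ => true)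
    | _ => (match x.r.st with | 0 => true | 1 => true | 3 => true | _ => false)) &&
  nix2 M Q x.r.st x.r.n (toC x.r.en1, toC x.r.en2) (toNZ x.r.zn) (toC x.r.sc) (toC x.sc2)
    (toNZ x.r.zl) (toNZ x.zm) &&
  lmem2 M Q x.r.st x.r.n x.r.W (sT M.K (toSL x.r)) (soff (toSL x.r)) (toMem x.r.AW)
    (toMem x.r.At) (toMem x.r.BW) (toMem x.r.Bt) &&
  zall M.K Q (ss1 (toSL x.r)) (ss2 (toSL x.r)) (s4 M.K x.r.st) (sS M.K (toSL x.r))
    (fx M.K x.r.n) x.r.W (sT M.K (toSL x.r)) (soff (toSL x.r)) (x.r.Z.map toZn) &&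
  (let G := zG M.K (ss1 (toSL x.r)) (ss2 (toSL x.r)) (s4 M.K x.r.st) (x.r.Z.map toZn)
   let J0 := jm0 x.r.st x.r.AW.inn x.r.At.inn x.r.BW.inn x.r.Bt.inn
   let J1 := jm1 x.r.st x.r.AW.inn x.r.At.inn x.r.BW.inn x.r.Bt.inn
   rng [0, J0, G, Int.add G J1])) = true
  exact and_mk (and_mk (and_mk (and_mk (and_mk h1 h4') r1) r2) r3) r4

theorem kl2_snd (M : Cx) (Q : List Con) (x : KLn2) (hM : Good2 M) (hQ : GQ Q)
    (h : kl2N (pkM M) (pkQ Q) x = true) : klc2 M Q (toKL2 x) = true := by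
  have hG := hM.K
  have h' : an (okd x.r.n) (an (exN (pkK M.K) (pkQ Q) x.r.n x.r.en1 x.r.en2 x.r.zn)
    (an (nzN (pkK M.K) (pkQ Q) (dsub x.r.n dL) x.r.zl)
    (an (nzN (pkK M.K) (pkQ Q) (axpy 1 dL x.r.n) x.r.zp)
    (an (nzN (pkK M.K) (pkQ Q) (dsub x.r.n dM) x.zm)
    (an (nzN (pkK M.K) (pkQ Q) (axpy 1 dM x.r.n) x.zpm)
    (match (pkk M.K.kf).drop x.r.ty with
    | [] => false
    | (fl, gs) :: _ => an (orr (izero (tau x.r.n)) (match fl with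
        | 0 => true
        | 1 => nzN (pkK M.K) (pkQ Q) (dsub x.r.n M.kd) x.r.zk
        | _ => an (nzN (pkK M.K) (pkQ Q) (dsub x.r.n M.kd) x.r.zk)
            (nzN (pkK M.K) (pkQ Q) (axpy 1 M.kd x.r.n) x.r.zk2)))
      (kgN (pkQ Q) ((mr x.r.q1) * (pkK M.K).P + (fxN (pkK M.K) x.r.n))
        ((mr x.r.q2) * (pkK M.K).P + (fRN (pkK M.K) x.r.n + fxN (pkK M.K) x.r.n)) gs
        x.r.c))))))) = true := h
  rw [an_iff, an_iff, an_iff, an_iff, an_iff, an_iff, Q_drop] at h'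
  obtain ⟨h1, h2, h3, h4, h4a, h4b, h5⟩ := h'
  obtain ⟨n1, n2⟩ := okd_bd h1
  have n3 : ∀ y ∈ x.r.n, |y| ≤ 24 := fun y hy => (n2 y hy).trans (by norm_num)
  have n4 : x.r.n.length ≤ 7 := n1.trans (by norm_num)
  have m1 : |(-1 : ℤ)| = 1 := by decide
  have m2 : |(1 : ℤ)| = 1 := by decide
  have k7 : M.kd.length ≤ 7 := hM.kl.trans (by norm_num)
  have r1 := sI.2 M.K Q x.r.n x.r.en1 x.r.en2 x.r.zn hG hQ n4 n3 h2
  have r2 := sI.1 M.K Q (dsub x.r.n dL) x.r.zl hG hQ (ax_len sA (dL_len 7 (by norm_num)) n4)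
    (ax_bd sA (by norm_num) (by norm_num) dL_bd n2 m1 (by norm_num)) h3
  have r3 := sI.1 M.K Q (axpy 1 dL x.r.n) x.r.zp hG hQ (ax_len sA (dL_len 7 (by norm_num)) n4)
    (ax_bd sA (by norm_num) (by norm_num) dL_bd n2 m2 (by norm_num)) h4
  have r4 := sI.1 M.K Q (dsub x.r.n dM) x.zm hG hQ (ax_len sA (dM_len 7 (by norm_num)) n4)
    (ax_bd sA (by norm_num) (by norm_num) dM_bd n2 m1 (by norm_num)) h4a
  have r5 := sI.1 M.K Q (axpy 1 dM x.r.n) x.zpm hG hQ (ax_len sA (dM_len 7 (by norm_num)) n4)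
    (ax_bd sA (by norm_num) (by norm_num) dM_bd n2 m2 (by norm_num)) h4b
  have r6 := sI.1 M.K Q (dsub x.r.n M.kd) x.r.zk hG hQ (ax_len sA k7 n4)
    (ax_bd sA (by norm_num) (by norm_num) hM.kb n2 m1 (by norm_num))
  have r7 := sI.1 M.K Q (axpy 1 M.kd x.r.n) x.r.zk2 hG hQ (ax_len sA k7 n4)
    (ax_bd sA (by norm_num) (by norm_num) hM.kb n2 m2 (by norm_num))
  have hz : Rep 2000 (axpy (mz x.r.q1) M.K.P (fx M.K x.r.n))
      ((mr x.r.q1) * (pkK M.K).P + (fxN (pkK M.K) x.r.n)) :=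
    Q_axpy sA (mr_cg _) (mz_bd _) hG.P (hG.x x.r.n n3) (by norm_num) (by norm_num) (by norm_num)
  have hs : Rep 2000 (axpy (mz x.r.q2) M.K.P (axpy 1 (fR M.K x.r.n) (fx M.K x.r.n)))
      ((mr x.r.q2) * (pkK M.K).P + (fRN (pkK M.K) x.r.n + fxN (pkK M.K) x.r.n)) :=
    Q_axpy sA (mr_cg _) (mz_bd _) hG.P
      (Q_add sA (hG.R x.r.n n3) (hG.x x.r.n n3) (by norm_num) (by norm_num)
        (show (576 : ℤ) + 1152 ≤ 1728 by norm_num)) (by norm_num) (by norm_num) (by norm_num)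
  show (exc M.K Q x.r.n (toC x.r.en1, toC x.r.en2) (toNZ x.r.zn) &&
    nzc M.K Q (dsub x.r.n dL) (toNZ x.r.zl) &&
    nzc M.K Q (axpy 1 dL x.r.n) (toNZ x.r.zp) &&
    nzc M.K Q (dsub x.r.n dM) (toNZ x.zm) &&
    nzc M.K Q (axpy 1 dM x.r.n) (toNZ x.zpm) &&
    (match M.K.kf.drop x.r.ty with
    | [] => false
    | (fl, gs) :: _ => (izero (tau x.r.n) || (match fl with
        | 0 => true
        | 1 => nzc M.K Q (dsub x.r.n M.kd) (toNZ x.r.zk)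
        | _ => nzc M.K Q (dsub x.r.n M.kd) (toNZ x.r.zk) &&
            nzc M.K Q (axpy 1 M.kd x.r.n) (toNZ x.r.zk2))) &&
      kgoals Q (axpy (mz x.r.q1) M.K.P (fx M.K x.r.n))
        (axpy (mz x.r.q2) M.K.P (axpy 1 (fR M.K x.r.n) (fx M.K x.r.n))) gs
        (x.r.c.map toC))) = true
  refine and_mk (and_mk (and_mk (and_mk (and_mk r1 r2) r3) r4) r5) ?_
  have hsub : ∀ f ∈ M.K.kf.drop x.r.ty, f ∈ M.K.kf := fun f hf => List.mem_of_mem_drop hf
  rcases hd : M.K.kf.drop x.r.ty with _ | ⟨⟨fl, gs⟩, ks⟩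
  · rw [hd] at h5
    exact absurd h5 (by show ¬ (false = true); simp)
  · rw [hd] at h5
    have h6 : an (orr (izero (tau x.r.n)) (match (generalizing := false) fl with
        | 0 => true
        | 1 => nzN (pkK M.K) (pkQ Q) (dsub x.r.n M.kd) x.r.zk
        | _ => an (nzN (pkK M.K) (pkQ Q) (dsub x.r.n M.kd) x.r.zk)
            (nzN (pkK M.K) (pkQ Q) (axpy 1 M.kd x.r.n) x.r.zk2)))
      (kgN (pkQ Q) ((mr x.r.q1) * (pkK M.K).P + (fxN (pkK M.K) x.r.n))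
        ((mr x.r.q2) * (pkK M.K).P + (fRN (pkK M.K) x.r.n + fxN (pkK M.K) x.r.n)) (pkg gs)
        x.r.c) = true := h5
    have hmem : (fl, gs) ∈ M.K.kf := hsub _ (by rw [hd]; exact List.mem_cons_self)
    have r8 := Q_kg sA sE Q hQ _ _ _ _ hz hs gs x.r.c (hG.kf _ hmem) (an2 h6)
    show ((izero (tau x.r.n) || (match (generalizing := false) fl with
        | 0 => true
        | 1 => nzc M.K Q (dsub x.r.n M.kd) (toNZ x.r.zk)
        | _ => nzc M.K Q (dsub x.r.n M.kd) (toNZ x.r.zk) &&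
            nzc M.K Q (axpy 1 M.kd x.r.n) (toNZ x.r.zk2))) &&
      kgoals Q (axpy (mz x.r.q1) M.K.P (fx M.K x.r.n))
        (axpy (mz x.r.q2) M.K.P (axpy 1 (fR M.K x.r.n) (fx M.K x.r.n))) gs
        (x.r.c.map toC)) = true
    refine and_mk (orr_or (an1 h6) ?_) r8
    intro h7
    match fl, h7 with
    | 0, _ => rfl
    | 1, h7 => exact r6 h7
    | _ + 2, h7 => exact and_mk (r6 (an1 h7)) (r7 (an2 h7))

end Helper81.PC
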