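import Pool.Agent.Helper81.PC.Snd2b

set_option autoImplicit false

/-!
# The packed checker for trees of the second kind: soundness, justifications and trees
-/

namespace Helper81.PC

open Helper11.CT Helper55.PC Pool.Agent.Helper58.PC

theorem jc2_snd (M : Cx) (Q : List Con) (e : List ℤ) (j : Jun2) (hM : Good2 M) (hQ : GQ Q)
    (he : okc e = true) (hj : jc2N (pkM M) (pkQ Q) e j = true) : juc2 M Q e (toJu2 j) = true := by
  have hK := hM.K
  have hpk : Rep 4000 e (pkN e) := Rep.pk (okc_bd he).1 (okc_bd he).2 (by norm_num)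
  cases j with
  | p s n f en1 en2 zn wf ef1 ef2 zf z z2 =>
    have hj' : an (okd n) (an (okd f)
      (an (isN (pkK M.K) (Nat.add (sgN s (Nat.add (ng (fIN (pkK M.K) n)) (fIN (pkK M.K) f)))
        (pkN e)))
      (an (exN (pkK M.K) (pkQ Q) n en1 en2 zn)
      (an (match (generalizing := false) wf with
        | 0 => leq f []
        | 1 => leq f [1]
        | _ => exN (pkK M.K) (pkQ Q) f ef1 ef2 zf)
      (an (t1 (Int.sub (tau n) (tau f)))
      (an (nzN (pkK M.K) (pkQ Q) (axpy (Int.sub (tau f) (tau n)) dL (dsub n f)) z)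
        (an (orr (!ieq (Int.sub (tau n) (tau f)) 1)
          (nzN (pkK M.K) (pkQ Q) (axpy 1 dM (dsub n f)) z2))
        (orr (!ieq (Int.sub (tau n) (tau f)) (-1))
          (nzN (pkK M.K) (pkQ Q) (dsub (dsub n f) dM) z2))))))))) = true := hj
    have k1 := an1 hj'
    have j2 := an2 hj'
    have k2 := an1 j2
    have j3 := an2 j2
    have k3 := an1 j3
    have j4 := an2 j3
    have k4 := an1 j4
    have j5 := an2 j4
    have k5 := an1 j5
    have j6 := an2 j5
    have k6 := an1 j6
    have j7 := an2 j6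
    have k7 := an1 j7
    have k8 := an2 j7
    have mk : ∀ {a b : Bool}, a = true → b = true → an a b = true :=
      fun {a b} h1 h2 => (an_iff a b).2 ⟨h1, h2⟩
    have hju : juN (pkK M.K) (pkQ Q) e (.p s n f en1 en2 zn wf ef1 ef2 zf z) = true :=
      mk k1 (mk k2 (mk k3 (mk k4 (mk k5 (mk k6 k7)))))
    have g1 := sU M.K Q e (.p s n f en1 en2 zn wf ef1 ef2 zf z) hK hQ he hju
    obtain ⟨n1, n2⟩ := okd_bd k1
    obtain ⟨f1, f2⟩ := okd_bd k2
    have hnf1 : (dsub n f).length ≤ 7 :=
      ax_len sA (f1.trans (by norm_num)) (n1.trans (by norm_num))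
    have hnf2 : ∀ y ∈ dsub n f, |y| ≤ 16 :=
      ax_bd sA (by norm_num) (by norm_num) f2 n2 (by decide) (by norm_num)
    have g2 := sI.1 M.K Q (axpy 1 dM (dsub n f)) z2 hK hQ
      (ax_len sA (dM_len 7 (by norm_num)) hnf1)
      (ax_bd sA (by norm_num) (by norm_num) dM_bd hnf2 (by decide) (by norm_num))
    have g3 := sI.1 M.K Q (dsub (dsub n f) dM) z2 hK hQ
      (ax_len sA (dM_len 7 (by norm_num)) hnf1)
      (ax_bd sA (by norm_num) (by norm_num) dM_bd hnf2 (by decide) (by norm_num))
    have g4 : ju2 M Q n f (toNZ z2) = true :=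
      and_mk (orr_or (an1 k8) g2) (orr_or (an2 k8) g3)
    exact and_mk g1 g4
  | pp s v =>
    have hj' : an (okd v) (an (isN (pkK M.K) (Nat.add (sgN s (ng (fIN (pkK M.K) v))) (pkN e)))
      (match (generalizing := false) v with
        | a :: _ :: _ :: r => isone2 a && allz r
        | _ => false)) = true := hj
    have hv : ∀ x ∈ v, |x| ≤ 24 := fun x hx => ((okd_bd (an1 hj')).2 x hx).trans (by norm_num)
    have hrep : Rep 100000 (axpy (sg s) (axpy (-1) (fI M.K v) []) e)
        (Nat.add (sgN s (ng (fIN (pkK M.K) v))) (pkN e)) :=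
      Pool.Agent.Helper3.PC.rep_sgN sA s (by norm_num)
        (Pool.Agent.Helper3.PC.rep_neg sA (by norm_num) (hK.I v hv)) hpk (by norm_num)
    have g1 := sR.1 M.K _ _ hK.nI hrep (an1 (an2 hj'))
    exact and_mk g1 (an2 (an2 hj'))
  | e0 s n z => exact sU M.K Q e (.e0 s n z) hK hQ he hj
  | ed s n z => exact sU M.K Q e (.ed s n z) hK hQ he hj

theorem ch2_snd (M : Cx) (hM : Good2 M) : ∀ (t : Ten2) (Q : List Con), GQ Q →
    ch2N (pkM M) t (pkQ Q) = true → chk2 M (toT2 t) Q = true := by
  intro t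
  induction t with
  | I e L R ihL ihR =>
    intro Q hq h
    have h' : an (isI M.K e) (an (okc e)
      (an (ch2N (pkM M) L (ps (4294967296 * (Nat.succ (ng (pkN e)))) (pkQ Q)))
        (ch2N (pkM M) R (ps (4294967296 * (pkN e)) (pkQ Q))))) = true := h
    rw [an_iff, an_iff, an_iff] at h'
    obtain ⟨h1, h2, h3, h4⟩ := h'
    obtain ⟨b1, b2⟩ := okc_bd h2
    obtain ⟨o1, o2, o3⟩ := V_one sA h2
    have e1 : pkQ ((true, axpy (-1) e [1]) :: Q) = ps (4294967296 * (pkN e)) (pkQ Q) := by
      show ps (4294967296 * (Nat.succ (ng (pkN (axpy (-1) e [1]))))) (pkQ Q) = _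
      apply V_ps
      have c1 := V_bd o2 (by norm_num)
      have c2 := V_bd b2 (by norm_num)
      have c3 := (ng_cg (pkN (axpy (-1) e [1]))).trans c1.neg
      rw [o3] at c3
      have c4 : ((4294967296 * (Nat.succ (ng (pkN (axpy (-1) e [1])))) : ℕ) : ℤ) ≡
          4294967296 * (-(1 - phi BB e) + 1) [ZMOD ZZ] := by
        push_cast
        exact (c3.add_right 1).mul_left _
      have c5 : ((4294967296 * pkN e : ℕ) : ℤ) ≡ 4294967296 * phi BB e [ZMOD ZZ] := by
        push_cast
        exact c2.mul_left _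
      have c6 : (4294967296 : ℤ) * (-(1 - phi BB e) + 1) = 4294967296 * phi BB e := by ring
      rw [c6] at c4
      exact c4.trans c5.symm
    show (isI M.K e && chk2 M (toT2 L) ((true, e) :: Q) &&
      chk2 M (toT2 R) ((true, axpy (-1) e [1]) :: Q)) = true
    refine and_mk (and_mk h1 ?_) ?_
    · exact ihL ((true, e) :: Q) (V_GQ b1 (fun x hx => (b2 x hx).trans (by norm_num)) hq) h3
    · apply ihR ((true, axpy (-1) e [1]) :: Q) (V_GQ o1 o2 hq)
      rw [e1]
      exact h4
  | Q e j L R ihL ihR =>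
    intro Q hq h
    have h' : an (okc e) (an (jc2N (pkM M) (pkQ Q) e j)
      (an (ch2N (pkM M) L (ps (Nat.succ (4294967296 * (ng (pkN e)))) (pkQ Q)))
        (ch2N (pkM M) R (ps (Nat.succ (4294967296 * (pkN e))) (pkQ Q))))) = true := h
    rw [an_iff, an_iff, an_iff] at h'
    obtain ⟨h2, h1, h3, h4⟩ := h'
    obtain ⟨b1, b2⟩ := okc_bd h2
    obtain ⟨o1, o2, o3⟩ := V_neg sA h2
    have e1 : pkQ ((false, axpy (-1) e []) :: Q) = ps (Nat.succ (4294967296 * (pkN e))) (pkQ Q) := by
      show ps (Nat.succ (4294967296 * (ng (pkN (axpy (-1) e []))))) (pkQ Q) = _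
      apply V_ps
      have c1 := V_bd o2 (by norm_num)
      have c2 := V_bd b2 (by norm_num)
      have c3 := (ng_cg (pkN (axpy (-1) e []))).trans c1.neg
      rw [o3, neg_neg] at c3
      push_cast
      exact ((c3.trans c2.symm).mul_left _).add_right 1
    show (juc2 M Q e (toJu2 j) && chk2 M (toT2 L) ((false, e) :: Q) &&
      chk2 M (toT2 R) ((false, axpy (-1) e []) :: Q)) = true
    refine and_mk (and_mk (jc2_snd M Q e j hM hq h2 h1) ?_) ?_
    · exact ihL ((false, e) :: Q) (V_GQ b1 (fun x hx => (b2 x hx).trans (by norm_num)) hq) h3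
    · apply ihR ((false, axpy (-1) e []) :: Q) (V_GQ o1 o2 hq)
      rw [e1]
      exact h4
  | C c =>
    intro Q hq h
    have h1 := sE Q c 0 [] hq (Rep.nil _) h
    show comb (toC c).l Q [] (Int.ofNat 0) false = true
    unfold cert at h1
    split at h1
    · exact h1
    · exact h1
  | N v m c1 c2 z =>
    intro Q hq h
    have h' : an (okd v) (an (nzN (pkK M.K) (pkQ Q) v z)
      (an (ctN (pkQ Q) c1 (mn m * (pkK M.K).P + (fRN (pkK M.K) v + 1)))
      (ctN (pkQ Q) c2 (mr m * (pkK M.K).P + (ng (fRN (pkK M.K) v) + 1))))) = true := h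
    -- the same leaf of a tree of the first kind
    have h1 : chk M.K (toT (.N v m c1 c2 z)) Q = true :=
      V_ch sA sE sI sO sP sQ sU M.K hM.K (.N v m c1 c2 z) Q hq h'
    exact h1
  | K r =>
    intro Q hq h
    exact kl2_snd M Q r hM hq h
  | R r =>
    intro Q hq h
    exact rl2_snd M Q r hM hq h
  | S r =>
    intro Q hq h
    exact sl2_snd M Q r hM hq h

/-- the packed checker for trees of the second kind is sound -/
theorem chk2N_sound (M : Cx) (t : Ten2) (Q : List Con) (h : chk2N M t Q = true) :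
    chk2 M (toT2 t) Q = true := by
  have h' : an (okM M) (an (okQ Q) (ch2N (pkM M) t (pkQ Q))) = true := h
  exact ch2_snd M (okM_good M (an1 h')) t Q (okQ_GQ Q (an1 (an2 h'))) (an2 (an2 h'))

end Helper81.PC
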